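import Pool.Agent.Y89.TU.Stm
import Pool.Agent.Y89.TS.Dich4

/-!
# Codimension two: the Hodge classes of codimension two decide
-/

open Matrix Finset Function

set_option linter.unusedSectionVars false

namespace Pool.Agent.Y89.TU

noncomputable section

open Pool.Agent.W544.PG (HS HW mC cspan cx)
open Pool.Agent.Y89.KS
open Pool.Agent.Y89.TS

section forms
variable {ι : Type} [Fintype ι] [DecidableEq ι]

/-- derivations and operators on the variables -/
theorem slm_der (Y Z : Matrix ι ι ℂ) {k : ℕ} (d : Fin k → Matrix ι ι ℂ)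
    (h : ∀ s, Y * d s = d s * Z) (f : (Fin k → ι) → ℂ) :
    slm d (der Y f) = der Z (slm d f) := by
  funext I
  have hl : slm d (der Y f) I = ∑ j, slm d (sl j Y f) I := by
    unfold slm der
    simp only [Finset.mul_sum]
    rw [Finset.sum_comm]
  rw [hl]
  unfold der
  refine Finset.sum_congr rfl fun j _ => ?_
  unfold slm sl
  simp only [Finset.mul_sum]
  rw [← Fintype.sum_prod_type', ← Fintype.sum_prod_type', ← Equiv.sum_comp (swp j)]
  have h1 : ∀ (I' J' : Fin k → ι), ∏ s, d s (J' s) (I' s) =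
      d j (J' j) (I' j) * ∏ s ∈ univ.erase j, d s (J' s) (I' s) := by
    intro I' J'
    rw [Finset.mul_prod_erase _ (fun s => d s (J' s) (I' s)) (Finset.mem_univ j)]
  simp only [swp, Equiv.coe_fn_mk, update_self, update_idem, update_eq_self, h1]
  rw [Fintype.sum_prod_type, Fintype.sum_prod_type, Finset.sum_comm (s := univ) (t := univ)
    (f := fun (p : ι) (J : Fin k → ι) => _)]
  refine Finset.sum_congr rfl fun J _ => ?_
  have h2 : ∀ p, ∏ s ∈ univ.erase j, d s (update J j p s) (I s) =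
      ∏ s ∈ univ.erase j, d s (J s) (I s) := by
    intro p
    refine Finset.prod_congr rfl fun s hs => ?_
    rw [update_of_ne (Finset.ne_of_mem_erase hs)]
  have h3 : ∀ p, ∏ s ∈ univ.erase j, d s (J s) (update I j p s) =
      ∏ s ∈ univ.erase j, d s (J s) (I s) := by
    intro p
    refine Finset.prod_congr rfl fun s hs => ?_
    rw [update_of_ne (Finset.ne_of_mem_erase hs)]
  simp only [h2, h3]
  have h4 := congrFun (congrFun (h j) (J j)) (I j)
  rw [Matrix.mul_apply, Matrix.mul_apply] at h4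
  have h5 : ∑ p, d j p (I j) * (∏ s ∈ univ.erase j, d s (J s) (I s)) * (Y (J j) p * f J) =
      (∑ p, Y (J j) p * d j p (I j)) * ((∏ s ∈ univ.erase j, d s (J s) (I s)) * f J) := by
    rw [Finset.sum_mul]
    refine Finset.sum_congr rfl fun p _ => ?_
    ring
  rw [h5, h4, Finset.sum_mul]
  refine Finset.sum_congr rfl fun p _ => ?_
  ring

theorem slm_zero {k : ℕ} (d : Fin k → Matrix ι ι ℂ) :
    slm d (0 : (Fin k → ι) → ℂ) = 0 := by
  funext I
  simp [slm]

theorem der_perm (z : Matrix ι ι ℂ) {k : ℕ} (σ : Equiv.Perm (Fin k)) (f : (Fin k → ι) → ℂ) :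
    der z (fun J : Fin k → ι => f fun i => J (σ i)) = fun J => der z f fun i => J (σ i) := by
  funext J
  unfold der sl
  rw [← Equiv.sum_comp σ]
  refine Finset.sum_congr rfl fun i _ => Finset.sum_congr rfl fun p _ => ?_
  have h1 : (fun s => update J (σ i) p (σ s)) = update (fun i => J (σ i)) i p := by
    funext s
    by_cases hs : s = i
    · subst hs
      simp
    · rw [update_of_ne (fun h => hs (σ.injective h)), update_of_ne hs]
  change z p (J (σ i)) * f (fun s => update J (σ i) p (σ s)) = _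
  rw [h1]

theorem der_altf (z : Matrix ι ι ℂ) (f : (Fin 4 → ι) → ℂ) (h : der z f = 0) :
    der z (altf f) = 0 := by
  have h1 : altf f = ∑ σ : Equiv.Perm (Fin 4),
      ((Equiv.Perm.sign σ : ℤ) : ℂ) • fun J : Fin 4 → ι => f fun i => J (σ i) := by
    funext J
    rw [Finset.sum_apply]
    rfl
  have h2 := map_sum (derL 4 z) (fun σ : Equiv.Perm (Fin 4) =>
    ((Equiv.Perm.sign σ : ℤ) : ℂ) • fun J : Fin 4 → ι => f fun i => J (σ i)) Finset.univ
  rw [h1]
  refine h2.trans (Finset.sum_eq_zero fun σ _ => ?_)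
  rw [map_smul]
  change _ • der z (fun J : Fin 4 → ι => f fun i => J (σ i)) = 0
  rw [der_perm, h]
  funext J
  simp

/-- alternating forms in four variables -/
def IsAlt {R : Type} [Ring R] (t : (Fin 4 → ι) → R) : Prop :=
  ∀ (τ : Equiv.Perm (Fin 4)) (J : Fin 4 → ι),
    t (fun i => J (τ i)) = ((Equiv.Perm.sign τ : ℤ) : R) * t J

theorem altf_alt (f : (Fin 4 → ι) → ℂ) : IsAlt (altf f) := by
  intro τ J
  unfold altf
  rw [← Equiv.sum_comp (Equiv.mulLeft τ⁻¹)]
  rw [Finset.mul_sum]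
  refine Finset.sum_congr rfl fun σ _ => ?_
  rw [Equiv.coe_mulLeft, Equiv.Perm.sign_mul, Equiv.Perm.sign_inv]
  have h1 : (fun i => J (τ ((τ⁻¹ * σ) i))) = fun i => J (σ i) := by
    funext i
    simp
  rw [h1, ← mul_assoc]
  push_cast
  rfl

/-- descent for alternating forms killed by all conjugates of `X` -/
theorem inv_alt (X : Matrix ι ι ℂ) (f : (Fin 4 → ι) → ℂ)
    (hf : ∀ σ : ℂ ≃+* ℂ, der (X.map σ) f = 0) (ha : IsAlt f) :
    f ∈ Submodule.span ℂ {g | ∃ t : (Fin 4 → ι) → ℚ, der X (cx t) = 0 ∧ IsAlt t ∧ g = cx t} := by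
  let L : Submodule ℂ ((Fin 4 → ι) → ℂ) :=
    { carrier := {f | (∀ σ : ℂ ≃+* ℂ, der (X.map σ) f = 0) ∧ IsAlt f}
      zero_mem' := ⟨fun σ => map_zero (derL 4 (X.map σ)), fun τ J => by simp⟩
      add_mem' := by
        rintro a b ⟨ha, ha'⟩ ⟨hb, hb'⟩
        refine ⟨fun σ => ?_, fun τ J => ?_⟩
        · have h1 := map_add (derL 4 (X.map σ)) a b
          change der _ (a + b) = der _ a + der _ b at h1
          rw [h1, ha σ, hb σ, add_zero]
        · rw [Pi.add_apply, Pi.add_apply, ha' τ J, hb' τ J, mul_add]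
      smul_mem' := by
        rintro c a ⟨ha, ha'⟩
        refine ⟨fun σ => ?_, fun τ J => ?_⟩
        · have h1 := map_smul (derL 4 (X.map σ)) c a
          change der _ (c • a) = c • der _ a at h1
          rw [h1, ha σ, smul_zero]
        · rw [Pi.smul_apply, Pi.smul_apply, ha' τ J, smul_eq_mul, smul_eq_mul]
          ring }
  have hL : ∀ (σ : ℂ ≃+* ℂ), ∀ v ∈ L, (fun i => σ (v i)) ∈ L := by
    rintro σ v ⟨hv, hv'⟩
    refine ⟨fun τ => ?_, fun τ J => ?_⟩
    · have h1 := der_map σ (X.map (τ.trans σ.symm)) v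
      have h2 : (X.map (τ.trans σ.symm)).map σ = X.map τ := by
        ext a b
        simp
      rw [h2, hv] at h1
      rw [h1]
      funext J
      simp
    · change σ (v fun i => J (τ i)) = _ * σ (v J)
      rw [hv' τ J, map_mul, map_intCast]
  have h := dsc _ L hL (show f ∈ L from ⟨hf, ha⟩)
  refine Submodule.span_mono ?_ h
  rintro g ⟨⟨hg, hg'⟩, r, rfl⟩
  refine ⟨r, ?_, ?_, rfl⟩
  · have := hg (RingEquiv.refl ℂ)
    have h2 : X.map (RingEquiv.refl ℂ) = X := by
      ext a b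
      simp
    rwa [h2] at this
  · intro τ J
    have h1 := hg' τ J
    change ((r fun i => J (τ i) : ℚ) : ℂ) = ((Equiv.Perm.sign τ : ℤ) : ℂ) * ((r J : ℚ) : ℂ) at h1
    exact_mod_cast h1

end forms

section main
variable {n w : ℕ} {V : HS n} {W : HW w} {Γ : Fin n → Matrix (Fin w) (Fin w) ℚ} {c : ℚ}
  {B : ∀ k : ℕ, Submodule ℚ ((Fin k → Fin w) → ℚ)} {U U' : Matrix (Fin n) (Fin n) ℂ}

theorem der_prod (z M N : Matrix (Fin w) (Fin w) ℂ) :
    der z (fun J : Fin 4 → Fin w => M (J 0) (J 1) * N (J 2) (J 3)) = fun J =>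
      (zᵀ * M + M * z) (J 0) (J 1) * N (J 2) (J 3) +
        M (J 0) (J 1) * (zᵀ * N + N * z) (J 2) (J 3) := by
  funext J
  simp only [der, sl, Fin.sum_univ_four, Matrix.add_apply, Matrix.mul_apply,
    Matrix.transpose_apply]
  have e : ∀ (i j : Fin 4) (p), j ≠ i → update J i p j = J j := fun i j p h => update_of_ne h _ _
  simp only [update_self, e 0 1 _ (by decide), e 0 2 _ (by decide), e 0 3 _ (by decide),
    e 1 0 _ (by decide), e 1 2 _ (by decide), e 1 3 _ (by decide), e 2 0 _ (by decide),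
    e 2 1 _ (by decide), e 2 3 _ (by decide), e 3 0 _ (by decide), e 3 1 _ (by decide),
    e 3 2 _ (by decide)]
  rw [add_mul, mul_add, Finset.sum_mul, Finset.sum_mul, Finset.mul_sum, Finset.mul_sum]
  have h1 : ∀ x, z x (J 0) * (M x (J 1) * N (J 2) (J 3)) = z x (J 0) * M x (J 1) * N (J 2) (J 3) :=
    fun x => by ring
  have h2 : ∀ x, z x (J 1) * (M (J 0) x * N (J 2) (J 3)) = M (J 0) x * z x (J 1) * N (J 2) (J 3) :=
    fun x => by ring
  have h3 : ∀ x, z x (J 2) * (M (J 0) (J 1) * N x (J 3)) = M (J 0) (J 1) * (z x (J 2) * N x (J 3)) :=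
    fun x => by ring
  have h4 : ∀ x, z x (J 3) * (M (J 0) (J 1) * N (J 2) x) = M (J 0) (J 1) * (N (J 2) x * z x (J 3)) :=
    fun x => by ring
  simp only [h1, h2, h3, h4]
  ring

/-- the class `Θ` is a Hodge class -/
theorem theta_der (h : Cliff V W Γ c) (σ : ℂ ≃+* ℂ) :
    der (W.y.map σ) (cx (theta V W Γ)) = 0 := by
  set z := W.y.map σ with hz
  set x := V.x.map σ with hx
  have hskew : ∀ i, zᵀ * (mC W.E * mC (Γ i)) + mC W.E * mC (Γ i) * z =
      -∑ k, x k i • (mC W.E * mC (Γ k)) := by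
    intro i
    have h1 := h.b σ (Pi.single i 1)
    rw [gam_single, gam_apply, Matrix.mulVec_single_one] at h1
    change z * mC (Γ i) - mC (Γ i) * z = ∑ k, x k i • mC (Γ k) at h1
    rw [← Matrix.mul_assoc, eq_neg_of_add_eq_zero_left (skewW W σ), Matrix.neg_mul,
      Matrix.mul_assoc, Matrix.mul_assoc, neg_add_eq_sub, ← Matrix.mul_sub, ← neg_sub, h1,
      Matrix.mul_neg, Matrix.mul_sum]
    simp only [Matrix.mul_smul]
  have hE : ∀ (i : Fin n) (a b : Fin w), (((W.E * Γ i) a b : ℚ) : ℂ) = (mC W.E * mC (Γ i)) a b := by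
    intro i a b
    rw [← mC_mul']
    rfl
  have h1 : cx (theta V W Γ) = ∑ i, ∑ j, ((V.Q⁻¹ i j : ℚ) : ℂ) •
      fun J : Fin 4 → Fin w => (mC W.E * mC (Γ i)) (J 0) (J 1) *
        (mC W.E * mC (Γ j)) (J 2) (J 3) := by
    funext J
    unfold cx theta
    push_cast
    rw [Finset.sum_apply]
    refine Finset.sum_congr rfl fun i _ => ?_
    rw [Finset.sum_apply]
    refine Finset.sum_congr rfl fun j _ => ?_
    rw [Pi.smul_apply, smul_eq_mul, hE, hE, mul_assoc]
  have h2 : der z (cx (theta V W Γ)) = ∑ i, ∑ j, ((V.Q⁻¹ i j : ℚ) : ℂ) •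
      der z (fun J : Fin 4 → Fin w => (mC W.E * mC (Γ i)) (J 0) (J 1) *
        (mC W.E * mC (Γ j)) (J 2) (J 3)) := by
    rw [h1]
    change derL 4 z _ = _
    rw [map_sum]
    refine Finset.sum_congr rfl fun i _ => ?_
    rw [map_sum]
    refine Finset.sum_congr rfl fun j _ => ?_
    rw [map_smul]
    rfl
  rw [h2]
  funext J
  rw [Finset.sum_apply]
  have hR : ∀ i j, ((V.Q⁻¹ i j : ℚ) : ℂ) = (mC V.Q)⁻¹ i j := by
    intro i j
    have h2 : mC V.Q⁻¹ = (mC V.Q)⁻¹ := by
      symm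
      apply Matrix.inv_eq_right_inv
      exact mC_Qinv V
    rw [← h2]
    rfl
  have hxR : x * (mC V.Q)⁻¹ = -((mC V.Q)⁻¹ * xᵀ) := by
    have h5 := xskew V σ
    have hRQ : (mC V.Q)⁻¹ * mC V.Q = 1 := mul_eq_one_comm.1 (QRV V)
    calc x * (mC V.Q)⁻¹ = (mC V.Q)⁻¹ * (mC V.Q * x) * (mC V.Q)⁻¹ := by
          rw [← Matrix.mul_assoc, hRQ, Matrix.one_mul]
      _ = -((mC V.Q)⁻¹ * xᵀ) := by
          rw [eq_neg_of_add_eq_zero_right h5, Matrix.mul_neg, Matrix.neg_mul, Matrix.mul_assoc,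
            Matrix.mul_assoc, QRV, Matrix.mul_one]
  set P : Fin n → ℂ := fun i => (mC W.E * mC (Γ i)) (J 0) (J 1) with hP
  set P' : Fin n → ℂ := fun i => (mC W.E * mC (Γ i)) (J 2) (J 3) with hP'
  have h3 : ∀ i, (∑ j, ((V.Q⁻¹ i j : ℚ) : ℂ) •
      der z (fun J : Fin 4 → Fin w => (mC W.E * mC (Γ i)) (J 0) (J 1) *
        (mC W.E * mC (Γ j)) (J 2) (J 3))) J =
      ∑ j, (mC V.Q)⁻¹ i j * (-(∑ k, x k i * P k) * P' j + P i * -(∑ k, x k j * P' k)) := by
    intro i
    rw [Finset.sum_apply]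
    refine Finset.sum_congr rfl fun j _ => ?_
    rw [Pi.smul_apply, smul_eq_mul, der_prod, hR, hskew, hskew]
    simp only [Matrix.neg_apply, Matrix.sum_apply, Matrix.smul_apply, smul_eq_mul, hP, hP']
  simp only [h3]
  have h4 : ∑ i, ∑ j, (mC V.Q)⁻¹ i j * (-(∑ k, x k i * P k) * P' j + P i * -(∑ k, x k j * P' k)) =
      -(P ⬝ᵥ ((x * (mC V.Q)⁻¹ + (mC V.Q)⁻¹ * xᵀ) *ᵥ P')) := by
    have e1 : P ⬝ᵥ ((x * (mC V.Q)⁻¹) *ᵥ P') =
        ∑ i, ∑ j, (mC V.Q)⁻¹ i j * ((∑ k, x k i * P k) * P' j) := by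
      rw [← Matrix.mulVec_mulVec, Matrix.dotProduct_mulVec]
      simp only [dotProduct, Matrix.vecMul, Matrix.mulVec, Finset.mul_sum]
      refine Finset.sum_congr rfl fun i _ => Finset.sum_congr rfl fun j _ => ?_
      have : ∑ k, P k * x k i = ∑ k, x k i * P k :=
        Finset.sum_congr rfl fun k _ => mul_comm _ _
      rw [this]
      ring
    have e2 : P ⬝ᵥ (((mC V.Q)⁻¹ * xᵀ) *ᵥ P') =
        ∑ i, ∑ j, (mC V.Q)⁻¹ i j * (P i * (∑ k, x k j * P' k)) := by
      rw [← Matrix.mulVec_mulVec]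
      simp only [dotProduct, Matrix.mulVec, Matrix.transpose_apply, Finset.mul_sum]
      refine Finset.sum_congr rfl fun i _ => Finset.sum_congr rfl fun j _ =>
        Finset.sum_congr rfl fun k _ => ?_
      ring
    rw [Matrix.add_mulVec, dotProduct_add, e1, e2, eq_neg_iff_add_eq_zero,
      ← Finset.sum_add_distrib, ← Finset.sum_add_distrib]
    refine Finset.sum_eq_zero fun i _ => ?_
    rw [← Finset.sum_add_distrib, ← Finset.sum_add_distrib]
    exact Finset.sum_eq_zero fun j _ => by ring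
  rw [h4, hxR, neg_add_cancel, Matrix.zero_mulVec, dotProduct_zero, neg_zero]
  rfl

/-- an even Clifford system whose commutant is in the commutant of the even part -/
theorem exists_even (h : Cliff V W Γ c) (hU : Uᵀ * ((c : ℂ) • mC V.Q) * U = 1) :
    ∃ β : Fin (2 * (n / 2)) → Matrix (Fin w) (Fin w) ℂ, Clf β ∧
      ∀ d : Matrix (Fin w) (Fin w) ℂ, (∀ j, d * β j = β j * d) → InD (ga Γ U) d := by
  have hγ := ga_clf h hU
  rcases Nat.even_or_odd n with he | ho
  · have hn : 2 * (n / 2) = n := Nat.two_mul_div_two_of_even he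
    refine ⟨fun j => ga Γ U (Fin.cast hn j), ⟨fun j => hγ.sq _, fun i j hij => hγ.anti _ _ ?_⟩, ?_⟩
    · intro h'
      exact hij (Fin.cast_injective _ h')
    · intro d hd i j
      have h1 := hd (Fin.cast hn.symm i)
      have h2 := hd (Fin.cast hn.symm j)
      simp only [Fin.cast_cast, Fin.cast_eq_self] at h1 h2
      rw [← Matrix.mul_assoc, h1, Matrix.mul_assoc, h2, Matrix.mul_assoc]
  · have hn : 2 * (n / 2) + 1 = n := Nat.two_mul_div_two_add_one_of_odd ho
    have hlt : 2 * (n / 2) < n := by omega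
    set o : Fin n := ⟨2 * (n / 2), hlt⟩ with ho'
    set e : Fin (2 * (n / 2)) → Fin n := fun j => ⟨j, by omega⟩ with he
    have hne : ∀ j, e j ≠ o := by
      intro j h'
      have h1 := congrArg Fin.val h'
      simp only [he, ho'] at h1
      omega
    have hinj : ∀ i j, i ≠ j → e i ≠ e j := by
      intro i j hij h'
      have h1 := congrArg Fin.val h'
      simp only [he] at h1
      exact hij (Fin.ext h1)
    have hall : ∀ i : Fin n, i = o ∨ ∃ j, i = e j := by
      intro i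
      by_cases hi : (i : ℕ) = 2 * (n / 2)
      · left; exact Fin.ext hi
      · right
        exact ⟨⟨i, by omega⟩, rfl⟩
    have hm : ∀ i j, ga Γ U (e i) * ga Γ U o * (ga Γ U (e j) * ga Γ U o) =
        -(ga Γ U (e i) * ga Γ U (e j)) := by
      intro i j
      rw [hγ.anti (e j) o (hne j), Matrix.mul_neg, Matrix.mul_assoc, ← Matrix.mul_assoc (ga Γ U o),
        hγ.sq, Matrix.one_mul]
    refine ⟨fun j => Complex.I • (ga Γ U (e j) * ga Γ U o), ⟨fun j => ?_, fun i j hij => ?_⟩, ?_⟩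
    · rw [Matrix.smul_mul, Matrix.mul_smul, smul_smul, hm, hγ.sq, Complex.I_mul_I, neg_one_smul,
        neg_neg]
    · rw [Matrix.smul_mul, Matrix.mul_smul, smul_smul, hm, Matrix.smul_mul, Matrix.mul_smul,
        smul_smul, hm, hγ.anti _ _ (hinj i j hij), smul_neg, smul_neg, neg_neg]
    · intro d hd
      have h1 : ∀ j, d * (ga Γ U (e j) * ga Γ U o) = ga Γ U (e j) * ga Γ U o * d := by
        intro j
        have h2 := hd j
        rw [Matrix.mul_smul, Matrix.smul_mul] at h2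
        exact smul_right_injective _ Complex.I_ne_zero h2
      have h1' : ∀ j, d * (ga Γ U o * ga Γ U (e j)) = ga Γ U o * ga Γ U (e j) * d := by
        intro j
        rw [hγ.anti o (e j) (hne j).symm, Matrix.mul_neg, Matrix.neg_mul, h1]
      intro i j
      rcases hall i with rfl | ⟨i, rfl⟩ <;> rcases hall j with rfl | ⟨j, rfl⟩
      · rw [hγ.sq, Matrix.mul_one, Matrix.one_mul]
      · exact h1' j
      · exact h1 i
      · have h3 : ga Γ U (e i) * ga Γ U (e j) =
            ga Γ U (e i) * ga Γ U o * (ga Γ U o * ga Γ U (e j)) := by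
          rw [Matrix.mul_assoc, ← Matrix.mul_assoc (ga Γ U o), hγ.sq, Matrix.one_mul]
        rw [h3, ← Matrix.mul_assoc, h1, Matrix.mul_assoc, h1', ← Matrix.mul_assoc]

/-- the class `Θ` is in the system if all Hodge classes of codimension two are -/
theorem theta_of_cod2 (hslot : S_slot) (halt : S_alt) (hunit : S_unit) (h : Cliff V W Γ c)
    (hw : 4 * 2 ^ (n / 2) ≤ w) (hB : CyclesW W B)
    (hC : ∀ t : (Fin 4 → Fin w) → ℚ, IsAlt t → HodgeW W t → t ∈ B 4) :
    theta V W Γ ∈ B 4 := by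
  obtain ⟨U, U', hU, hUU, -⟩ := exists_onb V h.ne
  obtain ⟨β, hβ, hβD⟩ := exists_even h hU
  obtain ⟨r, d, e, hd, he, hde, hsum⟩ := hunit (Fin w) (n / 2) β hβ (by
    rw [Fintype.card_fin]; exact hw)
  have hd' : ∀ i a (σ : ℂ ≃+* ℂ), d i a * W.y.map σ = W.y.map σ * d i a := fun i a σ =>
    inD_DD h hU hUU (hβD _ (hd i a)) σ
  have he' : ∀ i a (σ : ℂ ≃+* ℂ), e i a * W.y.map σ = W.y.map σ * e i a := fun i a σ =>
    inD_DD h hU hUU (hβD _ (he i a)) σ
  apply cspan_dsc
  rw [← halt (Fin w) r d e (cx (theta V W Γ)) hde hsum]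
  refine Submodule.sum_mem _ fun a _ => ?_
  refine hslot (Fin w) (mC W.E)⁻¹ (mC W.E) (fun k => cspan (B k)) (sysB hB) (Einv' W) 4 _ _ ?_
    (fun s => lef_span hB (he' s (a s)))
  have h1 := inv_alt W.y (altf (slm (fun s => d s (a s)) (cx (theta V W Γ)))) (fun σ => ?_)
    (altf_alt _)
  · refine Submodule.span_le.2 ?_ h1
    rintro g ⟨t, ht, hta, rfl⟩
    refine Submodule.subset_span ⟨t, hC t hta ?_, rfl⟩
    intro J
    exact congrFun ht J
  · apply der_altf
    rw [← slm_der (W.y.map σ) (W.y.map σ) _ (fun s => (hd' s (a s) σ).symm), theta_der h σ,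
      slm_zero]

/-- the Hodge conjecture in codimension two implies it for all powers -/
theorem cod2 (hslot : S_slot) (halt : S_alt) (hunit : S_unit) (hV : (V.x * V.x).trace = 2)
    (h : Cliff V W Γ c) (hw : 4 * 2 ^ (n / 2) ≤ w) (hB : CyclesW W B)
    (hC : ∀ t : (Fin 4 → Fin w) → ℚ, IsAlt t → HodgeW W t → t ∈ B 4)
    {k : ℕ} {t : (Fin k → Fin w) → ℚ} (ht : HodgeW W t) : t ∈ B k :=
  mainE hV h hB (theta_of_cod2 hslot halt hunit h hw hB hC) ht

end main

end

end Pool.Agent.Y89.TU
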