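import Pool.Agent.Y89.TS.Stm2

/-!
# Projects TU (codimension two) and TV (one correspondence): definitions and parts
-/

open Matrix Finset

namespace Pool.Agent.Y89.TU

noncomputable section

open Pool.Agent.Y89.KS (Sys der)
open Pool.Agent.Y89.TS (Clf InD act)

/-- the operators `d s` applied to the variables -/
def slm {ι : Type} [Fintype ι] {k : ℕ} (d : Fin k → Matrix ι ι ℂ) (f : (Fin k → ι) → ℂ) :
    (Fin k → ι) → ℂ :=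
  fun I => ∑ J : Fin k → ι, (∏ s, d s (J s) (I s)) * f J

/-- the alternating sum -/
def altf {ι : Type} (f : (Fin 4 → ι) → ℂ) : (Fin 4 → ι) → ℂ :=
  fun J => ∑ σ : Equiv.Perm (Fin 4), ((Equiv.Perm.sign σ : ℤ) : ℂ) * f (fun i => J (σ i))

/-- (SLOT) -/
def S_slot : Prop := ∀ (ι : Type) [Fintype ι] [DecidableEq ι] (R E : Matrix ι ι ℂ)
  (A : ∀ k : ℕ, Submodule ℂ ((Fin k → ι) → ℂ)), Sys R A → R * E = 1 →
  ∀ (k : ℕ) (d : Fin k → Matrix ι ι ℂ) (f : (Fin k → ι) → ℂ), f ∈ A k →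
  (∀ s, (fun J : Fin 2 → ι => (E * d s) (J 0) (J 1)) ∈ A 2) → slm d f ∈ A k

/-- (ALT) -/
def S_alt : Prop := ∀ (ι : Type) [Fintype ι] [DecidableEq ι] (r : ℕ)
  (d e : Fin 4 → Fin r → Matrix ι ι ℂ) (f : (Fin 4 → ι) → ℂ),
  (∀ i j a b, i ≠ j → d i a * e j b = 0) → (∀ i, ∑ a, d i a * e i a = 1) →
  ∑ a : Fin 4 → Fin r, slm (fun s => e s (a s)) (altf (slm (fun s => d s (a s)) f)) = f

/-- (UNIT) -/
def S_unit : Prop := ∀ (N : Type) [Fintype N] [DecidableEq N] (m : ℕ)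
  (β : Fin (2 * m) → Matrix N N ℂ), Clf β → 4 * 2 ^ m ≤ Fintype.card N →
  ∃ (r : ℕ) (d e : Fin 4 → Fin r → Matrix N N ℂ),
    (∀ i a j, d i a * β j = β j * d i a) ∧ (∀ i a j, e i a * β j = β j * e i a) ∧
    (∀ i j a b, i ≠ j → d i a * e j b = 0) ∧ ∀ i, ∑ a, d i a * e i a = 1

/-- (IDEAL) -/
def S_ideal : Prop := ∀ (N : Type) [Fintype N] [DecidableEq N] (n : ℕ)
  (Γ : Fin n → Matrix N N ℂ), Clf Γ → Odd n → ∀ K : Submodule ℂ (Matrix N N ℂ),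
  (∀ a ∈ K, ∀ b ∈ K, a * b - b * a ∈ K) →
  (∀ i j, i ≠ j → ∀ a ∈ K, Γ i * Γ j * a - a * (Γ i * Γ j) ∈ K) →
  (∀ a ∈ K, ∀ d, InD Γ d → a * d = d * a) →
  (∀ a ∈ K, ∃ c : ℂ, a = c • (1 : Matrix N N ℂ)) ∨ ∀ i j, i ≠ j → Γ i * Γ j ∈ K

/-- (WEIL2) the Weil operator of `V ⊕ W` fixes the Hodge classes -/
def S_weil2 : Prop := ∀ (n w : ℕ) (x : Matrix (Fin n) (Fin n) ℂ) (y : Matrix (Fin w) (Fin w) ℂ),
  x * x * x = x → (4 : ℂ) • (y * y) = 1 → ∀ (k : ℕ) (f : (Fin k → Fin n ⊕ Fin w) → ℂ),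
  der (fromBlocks x 0 0 y) f = 0 →
  act (fromBlocks (1 - (2 : ℂ) • (x * x)) 0 0 ((2 * Complex.I) • y))ᵀ f = f

/-- (NORM) operators normalising the spin representation act on the generators -/
def S_norm : Prop := ∀ (N : Type) [Fintype N] [DecidableEq N] (n : ℕ)
  (Γ : Fin n → Matrix N N ℂ), Clf Γ → Odd n → ∀ g g' : Matrix N N ℂ, g * g' = 1 → g' * g = 1 →
  (∀ d, InD Γ d → g * d = d * g) →
  (∀ i j, i ≠ j → g * (Γ i * Γ j) * g' ∈ Submodule.span ℂ {z | ∃ i j, i ≠ j ∧ z = Γ i * Γ j}) →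
  ∃ r : Matrix (Fin n) (Fin n) ℂ, ∀ i, g * Γ i * g' = ∑ j, r j i • Γ j

end

end Pool.Agent.Y89.TU
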