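import Pool.Agent.Y89.TU.One

/-!
# Linked systems: the symmetries

A system on `V ⊕ W` is linked if some class in it is not killed by the operators `(z, 0)`.
-/

open Matrix Finset Function

set_option linter.unusedSectionVars false

namespace Pool.Agent.Y89.TU

noncomputable section

open Pool.Agent.W544.PG (HS HW mC cspan cx)
open Pool.Agent.Y89.KS
open Pool.Agent.Y89.TS
open Pool.Agent.Y761.TS (act_act act_one actL)

section
variable {n w k : ℕ} {V : HS n} {W : HW w} {Γ : Fin n → Matrix (Fin w) (Fin w) ℚ} {c : ℚ}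
  {A : ∀ k : ℕ, Submodule ℚ ((Fin k → Fin n ⊕ Fin w) → ℚ)} {U U' : Matrix (Fin n) (Fin n) ℂ}

/-- the part of the Lie algebra acting on `W` only -/
def KA (A : ∀ k : ℕ, Submodule ℚ ((Fin k → Fin n ⊕ Fin w) → ℚ)) :
    Submodule ℂ (Matrix (Fin w) (Fin w) ℂ) where
  carrier := {d | fromBlocks (0 : Matrix (Fin n) (Fin n) ℂ) 0 0 d ∈ LA A}
  zero_mem' := by
    rw [Set.mem_ofPred_eq, fromBlocks_zero]
    exact (LA A).zero_mem
  add_mem' := by
    intro a b ha hb
    rw [Set.mem_ofPred_eq] at *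
    have := (LA A).add_mem ha hb
    rwa [fromBlocks_add, add_zero, add_zero, add_zero] at this
  smul_mem' := by
    intro c a ha
    rw [Set.mem_ofPred_eq] at *
    have := (LA A).smul_mem c ha
    rwa [fromBlocks_smul, smul_zero, smul_zero, smul_zero] at this

theorem mem_KA {d : Matrix (Fin w) (Fin w) ℂ} :
    d ∈ KA A ↔ fromBlocks (0 : Matrix (Fin n) (Fin n) ℂ) 0 0 d ∈ LA A := Iff.rfl

/-- some class in the system is not killed by the operators `(z, 0)` -/
def Linked (V : HS n) (A : ∀ k : ℕ, Submodule ℚ ((Fin k → Fin n ⊕ Fin w) → ℚ)) : Prop :=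
  ∃ (m : ℕ) (f : (Fin m → Fin n ⊕ Fin w) → ℚ) (z : Matrix (Fin n) (Fin n) ℂ), f ∈ A m ∧
    zᵀ * mC V.Q + mC V.Q * z = 0 ∧
    der (fromBlocks z 0 0 (0 : Matrix (Fin w) (Fin w) ℂ)) (cx f) ≠ 0

/-- the generators as a linear map -/
abbrev gm (Γ : Fin n → Matrix (Fin w) (Fin w) ℚ) : (Fin n → ℂ) →ₗ[ℂ] Matrix (Fin w) (Fin w) ℂ :=
  gam (fun i => mC (Γ i))

theorem gm_inj (h : Cliff V W Γ c) {v : Fin n → ℂ} (hv : gm Γ v = 0) : v = 0 := by
  have h1 : ∀ u : Fin n → ℂ, u ⬝ᵥ mC V.Q *ᵥ v = 0 := by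
    intro u
    have h2 := gam_rel h.relC u v
    change gm Γ u * gm Γ v + gm Γ v * gm Γ u = _ at h2
    rw [hv, Matrix.mul_zero, Matrix.zero_mul, add_zero, smul_smul] at h2
    have hne : (1 : Matrix (Fin w) (Fin w) ℂ) ≠ 0 := by
      intro h0
      have h3 := congrFun (congrFun h0 ⟨0, h.pos⟩) ⟨0, h.pos⟩
      simp at h3
    have h3 := (smul_eq_zero.1 h2.symm).resolve_right hne
    exact (mul_eq_zero.1 h3).resolve_right (mul_ne_zero two_ne_zero h.c0)
  have h2 : mC V.Q *ᵥ v = 0 := by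
    funext i
    have := h1 (Pi.single i 1)
    rwa [single_one_dotProduct] at this
  calc v = ((mC V.Q)⁻¹ * mC V.Q) *ᵥ v := by rw [RQ, Matrix.one_mulVec]
    _ = 0 := by rw [← Matrix.mulVec_mulVec, h2, Matrix.mulVec_zero]

theorem gm_U (Γ : Fin n → Matrix (Fin w) (Fin w) ℚ) (U : Matrix (Fin n) (Fin n) ℂ)
    (x : Fin n → ℂ) : gm Γ (U *ᵥ x) = ∑ a, x a • ga Γ U a := by
  have h1 : U *ᵥ x = ∑ a, x a • U.col a := by
    funext i
    simp only [Matrix.mulVec, dotProduct, Finset.sum_apply, Pi.smul_apply, smul_eq_mul,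
      Matrix.col_apply, mul_comm]
  rw [h1, map_sum]
  refine Finset.sum_congr rfl fun a _ => ?_
  rw [map_smul]
  rfl

/-- the spin representation of a skew operator is a combination of the `γ_i γ_j`, `i ≠ j` -/
theorem sp_span (h : Cliff V W Γ c) (hU : Uᵀ * ((c : ℂ) • mC V.Q) * U = 1) (hUU : U * U' = 1)
    {z : Matrix (Fin n) (Fin n) ℂ} (hz : zᵀ * mC V.Q + mC V.Q * z = 0) :
    sp V Γ c z ∈ Submodule.span ℂ {z | ∃ i j, i ≠ j ∧ z = ga Γ U i * ga Γ U j} := by
  have hR : ∀ i j, (z * (mC V.Q)⁻¹) j i = -(z * (mC V.Q)⁻¹) i j := by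
    have hRQ : (mC V.Q)⁻¹ * mC V.Q = 1 := mul_eq_one_comm.1 (QRV V)
    have hRt : ((mC V.Q)⁻¹)ᵀ = (mC V.Q)⁻¹ := by rw [Matrix.transpose_nonsing_inv, Qt]
    have h1 : (z * (mC V.Q)⁻¹)ᵀ = -(z * (mC V.Q)⁻¹) := by
      rw [transpose_mul, hRt]
      calc (mC V.Q)⁻¹ * zᵀ = (mC V.Q)⁻¹ * (zᵀ * mC V.Q) * (mC V.Q)⁻¹ := by
            rw [Matrix.mul_assoc, Matrix.mul_assoc, QRV, Matrix.mul_one]
        _ = -(z * (mC V.Q)⁻¹) := by
            rw [eq_neg_of_add_eq_zero_left hz, Matrix.mul_neg, ← Matrix.mul_assoc, hRQ,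
              Matrix.one_mul, Matrix.neg_mul]
    intro i j
    have := congrFun (congrFun h1 i) j
    rwa [Matrix.transpose_apply, Matrix.neg_apply] at this
  set T := z * (mC V.Q)⁻¹ with hT
  have h1 : sp V Γ c z = (1 / (4 * (c : ℂ))) • ∑ a, ∑ b,
      (∑ i, ∑ j, T i j * U' a i * U' b j) • (ga Γ U a * ga Γ U b) := by
    unfold sp spin
    congr 1
    have h2 : ∀ i j, T i j • (mC (Γ i) * mC (Γ j)) =
        ∑ a, ∑ b, (T i j * U' a i * U' b j) • (ga Γ U a * ga Γ U b) := by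
      intro i j
      rw [gen_ga hUU i, gen_ga hUU j, Finset.sum_mul_sum, Finset.smul_sum]
      refine Finset.sum_congr rfl fun a _ => ?_
      rw [Finset.smul_sum]
      refine Finset.sum_congr rfl fun b _ => ?_
      rw [Matrix.smul_mul, Matrix.mul_smul, smul_smul, smul_smul, mul_assoc]
    change ∑ i, ∑ j, T i j • (mC (Γ i) * mC (Γ j)) = _
    simp only [h2, Finset.sum_smul]
    have e1 : ∀ i : Fin n, ∑ j : Fin n, ∑ a : Fin n, ∑ b : Fin n,
        (T i j * U' a i * U' b j) • (ga Γ U a * ga Γ U b) =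
        ∑ a : Fin n, ∑ b : Fin n, ∑ j : Fin n,
          (T i j * U' a i * U' b j) • (ga Γ U a * ga Γ U b) := by
      intro i
      rw [Finset.sum_comm]
      exact Finset.sum_congr rfl fun a _ => Finset.sum_comm
    simp only [e1]
    rw [Finset.sum_comm]
    exact Finset.sum_congr rfl fun a _ => Finset.sum_comm
  rw [h1]
  refine Submodule.smul_mem _ _ (Submodule.sum_mem _ fun a _ => Submodule.sum_mem _ fun b _ => ?_)
  by_cases hab : a = b
  · subst hab
    have h2 : ∑ i, ∑ j, T i j * U' a i * U' a j = 0 := by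
      have h3 : ∑ i, ∑ j, T i j * U' a i * U' a j = -∑ i, ∑ j, T i j * U' a i * U' a j := by
        conv_lhs => rw [Finset.sum_comm]
        rw [← Finset.sum_neg_distrib]
        refine Finset.sum_congr rfl fun i _ => ?_
        rw [← Finset.sum_neg_distrib]
        refine Finset.sum_congr rfl fun j _ => ?_
        rw [hR i j]
        ring
      have h4 : (2 : ℂ) * ∑ i, ∑ j, T i j * U' a i * U' a j = 0 := by
        linear_combination h3
      exact (mul_eq_zero.1 h4).resolve_left two_ne_zero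
    rw [h2, zero_smul]
    exact Submodule.zero_mem _
  · exact Submodule.smul_mem _ _ (Submodule.subset_span ⟨a, b, hab, rfl⟩)

/-- operators commuting with all skew operators are scalars -/
theorem scal_of_comm (hS : V.Scalar) {P : Matrix (Fin n) (Fin n) ℂ}
    (hP : ∀ σ : ℂ ≃+* ℂ, P * V.x.map σ = V.x.map σ * P) :
    ∃ t : ℂ, P = t • (1 : Matrix (Fin n) (Fin n) ℂ) := by
  have h2 := Pool.Agent.W696.PG.de2 n V P hP
  clear hP
  induction h2 using Submodule.span_induction with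
  | mem D hD =>
    obtain ⟨D, rfl, hD⟩ := hD
    obtain ⟨c, hc⟩ := hS D hD
    refine ⟨c, ?_⟩
    rw [hc]
    ext a b
    by_cases hab : a = b
    · subst hab; simp [mC]
    · simp [mC, hab]
  | zero => exact ⟨0, by simp⟩
  | add a b _ _ ha hb =>
    obtain ⟨a', ha'⟩ := ha
    obtain ⟨b', hb'⟩ := hb
    exact ⟨a' + b', by rw [ha', hb', add_smul]⟩
  | smul t a _ ha =>
    obtain ⟨a', ha'⟩ := ha
    exact ⟨t * a', by rw [ha', smul_smul]⟩

/-- no operator acts on `W` only -/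
theorem KA_zero (hideal : S_ideal) (hV : (V.x * V.x).trace = 2) (hS : V.Scalar) (hn : Odd n)
    (h : Cliff V W Γ c) (hA : Cycles V W A) (hH : ∀ k : ℕ, ∀ t ∈ A k, IsHodge V W t)
    (hl : Linked V A)
    (hU : Uᵀ * ((c : ℂ) • mC V.Q) * U = 1) (hUU : U * U' = 1) {d : Matrix (Fin w) (Fin w) ℂ}
    (hd : d ∈ KA A) : d = 0 := by
  have hγ := ga_clf h hU
  have h1 := hideal (Fin w) n (ga Γ U) hγ hn (KA A) ?_ ?_ ?_
  · rcases h1 with h1 | h1
    · obtain ⟨t, rfl⟩ := h1 d hd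
      obtain ⟨a, d', h2, -, h3⟩ := LA_blocks hA hd
      rw [fromBlocks_inj] at h2
      rw [← h2.2.2.2, transpose_smul, transpose_one, Matrix.smul_mul, Matrix.mul_smul,
        Matrix.one_mul, Matrix.mul_one, ← add_smul] at h3
      have hE : mC W.E ≠ 0 := by
        intro h0
        have h9 := Edet W
        rw [h0] at h9
        have hne : Nonempty (Fin w) := ⟨⟨0, h.pos⟩⟩
        exact h9 Matrix.det_zero
      have h4 := (smul_eq_zero.1 h3).resolve_right hE
      have h5 : t = 0 := by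
        have : (2 : ℂ) * t = 0 := by rw [two_mul]; exact h4
        simpa using this
      rw [h5, zero_smul]
    · exfalso
      obtain ⟨m, f, z, hf, hz, hne⟩ := hl
      apply hne
      have h3 := dz_LA h hH z (skew_g0 hV hS hz)
      have h4 : sp V Γ c z ∈ KA A := by
        refine (Submodule.span_le.2 ?_) (sp_span h hU hUU hz)
        rintro _ ⟨i, j, hij, rfl⟩
        exact h1 i j hij
      have h6 := (LA A).sub_mem h3 (mem_KA.1 h4)
      rw [dz_eq, sub_eq_add_neg, fromBlocks_neg, fromBlocks_add] at h6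
      simp only [neg_zero, add_zero, add_neg_cancel] at h6
      exact h6 m f hf
  · intro a ha b hb
    rw [mem_KA] at *
    have := LA_br _ ha _ hb
    rw [fromBlocks_multiply, fromBlocks_multiply, sub_eq_add_neg, fromBlocks_neg,
      fromBlocks_add] at this
    simpa [sub_eq_add_neg] using this
  · intro i j hij a ha
    rw [mem_KA] at *
    have h2 := dz_LA h hH _ (wdg_mem hV hS (U.col i) (U.col j))
    have := (LA A).smul_mem (2 * (c : ℂ)) (LA_br _ h2 _ ha)
    rw [dz_eq, fromBlocks_multiply, fromBlocks_multiply, sub_eq_add_neg, fromBlocks_neg,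
      fromBlocks_add, fromBlocks_smul] at this
    rw [sp_ga h hU hij]
    simpa [sub_eq_add_neg, smul_add, smul_mul_assoc, mul_smul_comm] using this
  · intro a ha d hd
    exact LA_comm hA ha (inD_DD h hU hUU hd)

/-- the symmetries of a system on `V ⊕ W` -/
structure Sym (V : HS n) (W : HW w) (Γ : Fin n → Matrix (Fin w) (Fin w) ℚ)
    (g : Matrix (Fin n ⊕ Fin w) (Fin n ⊕ Fin w) ℂ) (a a' : Matrix (Fin n) (Fin n) ℂ)
    (d d' : Matrix (Fin w) (Fin w) ℂ) (ε : ℂ) : Prop where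
  eq : g = fromBlocks a 0 0 d
  a1 : a * a' = 1
  a2 : a' * a = 1
  d1 : d * d' = 1
  d2 : d' * d = 1
  aQ : a' * (mC V.Q)⁻¹ * a'ᵀ = (mC V.Q)⁻¹
  dE : dᵀ * mC W.E = mC W.E * d'
  rel : ∀ v, d * gm Γ v * d' = ε • gm Γ (a *ᵥ v)
  cD : ∀ D : Matrix (Fin w) (Fin w) ℚ, mC D * W.y = W.y * mC D → d * mC D = mC D * d
  sq : ε * ε = 1

theorem exists_sym (hideal : S_ideal) (hnorm : S_norm) (hV : (V.x * V.x).trace = 2)
    (hS : V.Scalar) (hn : Odd n)
    (h : Cliff V W Γ c) (hA : Cycles V W A) (hH : ∀ k : ℕ, ∀ t ∈ A k, IsHodge V W t)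
    (hl : Linked V A)
    {g : Matrix (Fin n ⊕ Fin w) (Fin n ⊕ Fin w) ℂ}
    (hg : ∀ (l : ℕ), ∀ x ∈ AC A l, act gᵀ x = x) :
    ∃ a a' d d' ε, Sym V W Γ g a a' d d' ε := by
  obtain ⟨U, U', hU, hUU, hU'U⟩ := exists_onb V h.ne
  have hQ := hg 2 _ (Q_span hA)
  rw [act_bil] at hQ
  have hQ := bil_inj' hQ
  have hE := hg 2 _ (E_span' hA)
  rw [act_bil] at hE
  have hE := bil_inj' hE
  have hgb : g = fromBlocks g.toBlocks₁₁ g.toBlocks₁₂ g.toBlocks₂₁ g.toBlocks₂₂ :=
    (fromBlocks_toBlocks g).symm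
  rw [hgb, fromBlocks_transpose, fromBlocks_multiply, fromBlocks_multiply, fromBlocks_inj]
    at hQ hE
  simp only [Matrix.mul_zero, Matrix.zero_mul, add_zero, zero_add] at hQ hE
  set a := g.toBlocks₁₁
  set d := g.toBlocks₂₂
  obtain ⟨q1, q2, -, -⟩ := hQ
  obtain ⟨-, -, e3, e4⟩ := hE
  obtain ⟨a', ha'⟩ : ∃ a', a' = (mC V.Q)⁻¹ * aᵀ * mC V.Q := ⟨_, rfl⟩
  obtain ⟨d', hd'⟩ : ∃ d', d' = (mC W.E)⁻¹ * dᵀ * mC W.E := ⟨_, rfl⟩
  have a2 : a' * a = 1 := by
    rw [ha', Matrix.mul_assoc, Matrix.mul_assoc, ← Matrix.mul_assoc aᵀ, q1, RQ]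
  have a1 : a * a' = 1 := mul_eq_one_comm.1 a2
  have d2 : d' * d = 1 := by
    rw [hd', Matrix.mul_assoc, Matrix.mul_assoc, ← Matrix.mul_assoc dᵀ, e4, Einv']
  have d1 : d * d' = 1 := mul_eq_one_comm.1 d2
  have haQ : aᵀ * mC V.Q = mC V.Q * a' := by
    rw [ha', Matrix.mul_assoc, ← Matrix.mul_assoc (mC V.Q), QRV, Matrix.one_mul]
  have hdE : dᵀ * mC W.E = mC W.E * d' := by
    rw [hd', Matrix.mul_assoc, ← Matrix.mul_assoc (mC W.E), Einv, Matrix.one_mul]
  have hb0 : g.toBlocks₁₂ = 0 := by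
    rw [haQ] at q2
    have h1 := congrArg (fun Z => (mC V.Q)⁻¹ * Z) q2
    simp only [← Matrix.mul_assoc, RQ, Matrix.one_mul, Matrix.mul_zero] at h1
    calc g.toBlocks₁₂ = a * (a' * g.toBlocks₁₂) := by rw [← Matrix.mul_assoc, a1, Matrix.one_mul]
      _ = 0 := by rw [h1, Matrix.mul_zero]
  have he0 : g.toBlocks₂₁ = 0 := by
    rw [hdE] at e3
    have h1 := congrArg (fun Z => (mC W.E)⁻¹ * Z) e3
    simp only [← Matrix.mul_assoc, Einv', Matrix.one_mul, Matrix.mul_zero] at h1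
    calc g.toBlocks₂₁ = d * (d' * g.toBlocks₂₁) := by rw [← Matrix.mul_assoc, d1, Matrix.one_mul]
      _ = 0 := by rw [h1, Matrix.mul_zero]
  rw [hb0, he0] at hgb
  have hdE' : ∀ e : Matrix (Fin w) (Fin w) ℂ, (∀ σ : ℂ ≃+* ℂ, e * W.y.map σ = W.y.map σ * e) →
      d * e = e * d := by
    intro e he
    have h3 := hg 2 _ (const_mem hA e he)
    rw [act_bil] at h3
    have h3 := bil_inj' h3
    rw [hgb, fromBlocks_transpose, fromBlocks_multiply, fromBlocks_multiply, fromBlocks_inj] at h3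
    simp only [Matrix.mul_zero, Matrix.zero_mul, add_zero, zero_add] at h3
    have h4 := h3.2.2.2
    rw [← Matrix.mul_assoc, hdE, Matrix.mul_assoc, Matrix.mul_assoc] at h4
    have h5 := E_cancel W h4
    calc d * e = d * (d' * (e * d)) := by rw [h5]
      _ = e * d := by rw [← Matrix.mul_assoc, d1, Matrix.one_mul]
  have hdD : ∀ e : Matrix (Fin w) (Fin w) ℂ, InD (ga Γ U) e → d * e = e * d :=
    fun e he => hdE' e (inD_DD h hU hUU he)
  have hdR : ∀ D : Matrix (Fin w) (Fin w) ℚ, mC D * W.y = W.y * mC D → d * mC D = mC D * d := by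
    intro D hD
    refine hdE' _ fun σ => ?_
    have h1 := congrArg (fun M : Matrix (Fin w) (Fin w) ℂ => M.map σ) hD
    simp only [mul_map', mC_map'] at h1
    exact h1
  -- conjugation of skew operators
  have hsk : ∀ z : Matrix (Fin n) (Fin n) ℂ, zᵀ * mC V.Q + mC V.Q * z = 0 →
      (a * z * a')ᵀ * mC V.Q + mC V.Q * (a * z * a') = 0 := by
    intro z hz
    have h1 : a'ᵀ * mC V.Q = mC V.Q * a := by
      have h2 := congrArg Matrix.transpose haQ
      rw [transpose_mul, transpose_mul, transpose_transpose, Qt] at h2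
      exact h2.symm
    rw [transpose_mul, transpose_mul]
    calc a'ᵀ * (zᵀ * aᵀ) * mC V.Q + mC V.Q * (a * z * a')
        = a'ᵀ * zᵀ * (aᵀ * mC V.Q) + mC V.Q * (a * z * a') := by simp only [Matrix.mul_assoc]
      _ = a'ᵀ * (zᵀ * mC V.Q) * a' + mC V.Q * (a * z * a') := by
          rw [haQ]; simp only [Matrix.mul_assoc]
      _ = -(a'ᵀ * mC V.Q * z * a') + mC V.Q * (a * z * a') := by
          rw [eq_neg_of_add_eq_zero_left hz, Matrix.mul_neg, Matrix.neg_mul]
          simp only [Matrix.mul_assoc]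
      _ = 0 := by
          rw [h1]
          simp only [Matrix.mul_assoc, neg_add_cancel]
  have hconj : ∀ z : Matrix (Fin n) (Fin n) ℂ, zᵀ * mC V.Q + mC V.Q * z = 0 →
      d * sp V Γ c z * d' = sp V Γ c (a * z * a') := by
    intro z hz
    have hz1 := dz_LA h hH _ (skew_g0 hV hS hz)
    have hz2 := dz_LA h hH _ (skew_g0 hV hS (hsk z hz))
    have hz3 : fromBlocks (a * z * a') 0 0 (d * sp V Γ c z * d') ∈ LA A := by
      intro l t ht
      set Y := fromBlocks (a * z * a') 0 0 (d * sp V Γ c z * d') with hY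
      have hYg : Y * g = g * dz V Γ c z := by
        rw [hY, hgb, dz_eq, fromBlocks_multiply, fromBlocks_multiply]
        simp only [Matrix.mul_zero, Matrix.zero_mul, add_zero, zero_add]
        rw [Matrix.mul_assoc _ a' a, a2, Matrix.mul_one, Matrix.mul_assoc _ d' d, d2,
          Matrix.mul_one]
      have h3 : act gᵀ (der Y (cx t)) = 0 := by
        rw [act_der g Y _ hYg (cx t), hg l _ (cx_mem ht)]
        exact hz1 l t ht
      set g' := fromBlocks a' 0 0 d' with hg'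
      have hgg : g * g' = 1 := by
        rw [hgb, hg', fromBlocks_multiply]
        simp only [Matrix.mul_zero, Matrix.zero_mul, add_zero, zero_add]
        rw [a1, d1, fromBlocks_one]
      have h4 := congrArg (act g'ᵀ) h3
      rw [act_act, ← Matrix.transpose_mul, hgg, Matrix.transpose_one, act_one] at h4
      rw [h4]
      exact map_zero (actL g'ᵀ l)
    have hz4 := (LA A).sub_mem hz3 hz2
    rw [dz_eq, sub_eq_add_neg, fromBlocks_neg, fromBlocks_add, add_neg_cancel] at hz4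
    simp only [neg_zero, add_zero] at hz4
    rw [← sub_eq_add_neg] at hz4
    have hz5 := KA_zero hideal hV hS hn h hA hH hl hU hUU (mem_KA.2 hz4)
    exact sub_eq_zero.1 hz5
  have hnr := hnorm (Fin w) n (ga Γ U) (ga_clf h hU) hn d d' d1 d2 hdD (fun i j hij => by
    have hwd : (wdg (mC V.Q) (U.col i) (U.col j))ᵀ * mC V.Q +
        mC V.Q * wdg (mC V.Q) (U.col i) (U.col j) = 0 := g0_skew V (wdg_mem hV hS _ _)
    rw [sp_ga h hU hij, Matrix.mul_smul, Matrix.smul_mul, hconj _ hwd]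
    exact Submodule.smul_mem _ _ (sp_span h hU hUU (hsk _ hwd)))
  obtain ⟨r, hr⟩ := hnr
  obtain ⟨ρ, hρ⟩ : ∃ ρ : Matrix (Fin n) (Fin n) ℂ, ∀ v, d * gm Γ v * d' = gm Γ (ρ *ᵥ v) := by
    refine ⟨U * r * U', fun v => ?_⟩
    have h1 : v = U *ᵥ (U' *ᵥ v) := by rw [Matrix.mulVec_mulVec, hUU, Matrix.one_mulVec]
    conv_lhs => rw [h1, gm_U]
    rw [Finset.mul_sum, Finset.sum_mul]
    have h2 : ∀ i, d * ((U' *ᵥ v) i • ga Γ U i) * d' = ∑ j, ((U' *ᵥ v) i * r j i) • ga Γ U j := by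
      intro i
      rw [Matrix.mul_smul, Matrix.smul_mul, hr, Finset.smul_sum]
      simp only [smul_smul]
    simp only [h2]
    rw [Finset.sum_comm]
    have h3 : (U * r * U') *ᵥ v = U *ᵥ (r *ᵥ (U' *ᵥ v)) := by
      rw [Matrix.mulVec_mulVec, Matrix.mulVec_mulVec, Matrix.mul_assoc]
    rw [h3, gm_U]
    refine Finset.sum_congr rfl fun j _ => ?_
    rw [← Finset.sum_smul]
    congr 1
    rw [Matrix.mulVec, dotProduct]
    exact Finset.sum_congr rfl fun i _ => mul_comm _ _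
  have hcomm : ∀ z : Matrix (Fin n) (Fin n) ℂ, zᵀ * mC V.Q + mC V.Q * z = 0 →
      ρ * z = a * z * a' * ρ := by
    intro z hz
    have h1 : ∀ v, (ρ * z) *ᵥ v = (a * z * a' * ρ) *ᵥ v := by
      intro v
      have h2 := congrArg (fun Z => d * Z * d') (h.comm hz v)
      have h3 : d * (sp V Γ c z * gm Γ v - gm Γ v * sp V Γ c z) * d' =
          (d * sp V Γ c z * d') * (d * gm Γ v * d') -
            (d * gm Γ v * d') * (d * sp V Γ c z * d') := by
        have e1 : ∀ X Y : Matrix (Fin w) (Fin w) ℂ, d * X * d' * (d * Y * d') =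
            d * (X * Y) * d' := by
          intro X Y
          calc d * X * d' * (d * Y * d') = d * X * (d' * d) * Y * d' := by
                simp only [Matrix.mul_assoc]
            _ = d * (X * Y) * d' := by rw [d2, Matrix.mul_one]; simp only [Matrix.mul_assoc]
        rw [e1, e1, ← Matrix.sub_mul, ← Matrix.mul_sub]
      change d * (sp V Γ c z * gm Γ v - gm Γ v * sp V Γ c z) * d' = d * gm Γ (z *ᵥ v) * d' at h2
      rw [h3, hconj z hz, hρ, hρ] at h2
      have h4 := h.comm (hsk z hz) (ρ *ᵥ v)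
      change sp V Γ c (a * z * a') * gm Γ (ρ *ᵥ v) - gm Γ (ρ *ᵥ v) * sp V Γ c (a * z * a') =
        gm Γ ((a * z * a') *ᵥ (ρ *ᵥ v)) at h4
      rw [h4] at h2
      have h5 : gm Γ ((a * z * a') *ᵥ (ρ *ᵥ v) - ρ *ᵥ (z *ᵥ v)) = 0 := by
        rw [map_sub, h2, sub_self]
      have h6 := sub_eq_zero.1 (gm_inj h h5)
      rw [← Matrix.mulVec_mulVec, ← h6, Matrix.mulVec_mulVec]
    ext i j
    have h2 := congrFun (h1 (Pi.single j 1)) i
    rwa [Matrix.mulVec_single_one, Matrix.mulVec_single_one] at h2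
  obtain ⟨ε, hε⟩ := scal_of_comm hS (P := a' * ρ) (fun σ => by
    have h1 := hcomm _ (xskew V σ)
    calc a' * ρ * V.x.map σ = a' * (ρ * V.x.map σ) := Matrix.mul_assoc _ _ _
      _ = a' * (a * V.x.map σ * a' * ρ) := by rw [h1]
      _ = (a' * a) * V.x.map σ * (a' * ρ) := by simp only [Matrix.mul_assoc]
      _ = V.x.map σ * (a' * ρ) := by rw [a2, Matrix.one_mul])
  have hρε : ρ = ε • a := by
    calc ρ = a * (a' * ρ) := by rw [← Matrix.mul_assoc, a1, Matrix.one_mul]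
      _ = ε • a := by rw [hε, Matrix.mul_smul, Matrix.mul_one]
  have hrel : ∀ v, d * gm Γ v * d' = ε • gm Γ (a *ᵥ v) := by
    intro v
    rw [hρ, hρε, Matrix.smul_mulVec, map_smul]
  refine ⟨a, a', d, d', ε, hgb, a1, a2, d1, d2, ?_, hdE, hrel, hdR, ?_⟩
  · have h1 : a' * (mC V.Q)⁻¹ = (mC V.Q)⁻¹ * aᵀ := by
      rw [ha', Matrix.mul_assoc, QRV, Matrix.mul_one]
    rw [h1, Matrix.mul_assoc, ← transpose_mul, a2, transpose_one, Matrix.mul_one]
  · obtain ⟨m, hm⟩ := hn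
    set i0 : Fin n := ⟨0, by omega⟩ with hi0
    have h1 := col_form (V := V) hU i0 i0
    rw [if_pos rfl] at h1
    have h2 : ∀ v, gm Γ v * gm Γ v = ((c : ℂ) * (v ⬝ᵥ mC V.Q *ᵥ v)) •
        (1 : Matrix (Fin w) (Fin w) ℂ) := by
      intro v
      have h3 := gam_rel h.relC v v
      rw [← two_smul ℂ, smul_smul, ] at h3
      have h4 := congrArg (fun Z => (2 : ℂ)⁻¹ • Z) h3
      simp only [smul_smul] at h4
      rw [inv_mul_cancel₀ two_ne_zero, one_smul] at h4
      change gm Γ v * gm Γ v = _ at h4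
      rw [h4]
      congr 1
      ring
    have h3 : d * (gm Γ (U.col i0) * gm Γ (U.col i0)) * d' =
        (d * gm Γ (U.col i0) * d') * (d * gm Γ (U.col i0) * d') := by
      calc d * (gm Γ (U.col i0) * gm Γ (U.col i0)) * d' =
          d * gm Γ (U.col i0) * 1 * gm Γ (U.col i0) * d' := by
            rw [Matrix.mul_one]; simp only [Matrix.mul_assoc]
        _ = _ := by rw [← d2]; simp only [Matrix.mul_assoc]
    rw [hrel, h2, h1, one_smul, Matrix.mul_one, d1, Matrix.smul_mul, Matrix.mul_smul, smul_smul,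
      h2] at h3
    have h4 : (a *ᵥ U.col i0) ⬝ᵥ mC V.Q *ᵥ (a *ᵥ U.col i0) =
        U.col i0 ⬝ᵥ mC V.Q *ᵥ U.col i0 := by
      calc (a *ᵥ U.col i0) ⬝ᵥ mC V.Q *ᵥ (a *ᵥ U.col i0)
          = U.col i0 ⬝ᵥ aᵀ *ᵥ (mC V.Q *ᵥ (a *ᵥ U.col i0)) := by
            rw [Matrix.dotProduct_mulVec (U.col i0), Matrix.vecMul_transpose]
        _ = U.col i0 ⬝ᵥ mC V.Q *ᵥ U.col i0 := by
            rw [Matrix.mulVec_mulVec, Matrix.mulVec_mulVec, q1]
    rw [h4, h1, smul_smul, mul_one] at h3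
    have h5 := congrFun (congrFun h3 ⟨0, h.pos⟩) ⟨0, h.pos⟩
    simp only [Matrix.one_apply_eq, Matrix.smul_apply, smul_eq_mul, mul_one] at h5
    exact h5.symm

end

end

end Pool.Agent.Y89.TU
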