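import Pool.Agent.Y89.TU.Lnk1
import Pool.Agent.Y89.KS.MainA

/-!
# Linked systems: the invariants of a group
-/

open Matrix Finset Function

set_option linter.unusedSectionVars false

namespace Pool.Agent.Y89.TU

noncomputable section

open Pool.Agent.W544.PG (HS HW mC cspan cx)
open Pool.Agent.Y89.KS
open Pool.Agent.Y89.TS
open Pool.Agent.Y761.TS (act_act act_one actL act_append act_mul act_perm)

section gen
variable {ι : Type} [Fintype ι] [DecidableEq ι] {k : ℕ}

theorem sum3 {κ : Type} [Fintype κ] (X : ι → ι → κ → ℂ) :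
    ∑ p, ∑ q, ∑ K, X p q K = ∑ K, ∑ p, ∑ q, X p q K := by
  calc ∑ p, ∑ q, ∑ K, X p q K = ∑ p, ∑ K, ∑ q, X p q K :=
        Finset.sum_congr rfl fun p _ => Finset.sum_comm
    _ = _ := Finset.sum_comm

theorem sum_two (F : (Fin 2 → ι) → ℂ) : ∑ M : Fin 2 → ι, F M = ∑ a, ∑ b, F ![a, b] := by
  rw [← (finTwoArrowEquiv ι).symm.sum_comp, Fintype.sum_prod_type]
  rfl

/-- the contraction commutes with the action -/
theorem act_con (g R : Matrix ι ι ℂ) (hR : g * R * gᵀ = R) (f : (Fin (k + 2) → ι) → ℂ) :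
    act gᵀ (fun I : Fin k → ι => ∑ p, ∑ q, R p q * f (Fin.append I ![p, q])) =
      fun I => ∑ p, ∑ q, R p q * act gᵀ f (Fin.append I ![p, q]) := by
  funext I
  have hR' : ∀ a b, R a b = ∑ p, ∑ q, R p q * (g a p * g b q) := by
    intro a b
    conv_lhs => rw [← hR]
    rw [Matrix.mul_apply]
    simp only [Matrix.mul_apply, Matrix.transpose_apply, Finset.sum_mul]
    rw [Finset.sum_comm]
    exact Finset.sum_congr rfl fun p _ => Finset.sum_congr rfl fun q _ => by ring
  have h1 : ∀ p q, R p q * act gᵀ f (Fin.append I ![p, q]) =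
      ∑ K : Fin k → ι, ∑ a, ∑ b, (∏ s, gᵀ (I s) (K s)) * (R p q * (g a p * g b q)) *
        f (Fin.append K ![a, b]) := by
    intro p q
    rw [act_append, Finset.mul_sum]
    refine Finset.sum_congr rfl fun K _ => ?_
    rw [sum_two, Finset.mul_sum]
    refine Finset.sum_congr rfl fun a _ => ?_
    rw [Finset.mul_sum]
    refine Finset.sum_congr rfl fun b _ => ?_
    simp only [Fin.prod_univ_two, Matrix.cons_val_zero, Matrix.cons_val_one,
      Matrix.transpose_apply, Matrix.cons_val_fin_one]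
    ring
  simp only [h1]
  rw [sum3]
  unfold act
  refine Finset.sum_congr rfl fun K _ => ?_
  rw [sum3, Finset.mul_sum]
  refine Finset.sum_congr rfl fun a _ => ?_
  rw [sum3, Finset.mul_sum]
  refine Finset.sum_congr rfl fun b _ => ?_
  have h2 : ∑ p, ∑ q, (∏ s, gᵀ (I s) (K s)) * (R p q * (g a p * g b q)) *
      f (Fin.append K ![a, b]) = (∏ s, gᵀ (I s) (K s)) *
        ((∑ p, ∑ q, R p q * (g a p * g b q)) * f (Fin.append K ![a, b])) := by
    simp only [Finset.sum_mul, Finset.mul_sum]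
    exact Finset.sum_congr rfl fun p _ => Finset.sum_congr rfl fun q _ => by ring
  rw [h2, ← hR']

/-- the rational invariants of a set of matrices -/
def IS (P : Matrix ι ι ℂ → Prop) (k : ℕ) : Submodule ℚ ((Fin k → ι) → ℚ) where
  carrier := {t | ∀ g, P g → act gᵀ (cx t) = cx t}
  zero_mem' := by
    intro g _
    have h1 : cx (0 : (Fin k → ι) → ℚ) = 0 := by
      funext J
      simp [cx]
    rw [h1]
    exact map_zero (actL gᵀ k)
  add_mem' := by
    intro a b ha hb g hg
    have h1 : cx (a + b) = cx a + cx b := by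
      funext J
      simp [cx]
    have h2 := map_add (actL gᵀ k) (cx a) (cx b)
    change act gᵀ (cx a + cx b) = act gᵀ (cx a) + act gᵀ (cx b) at h2
    rw [h1, h2, ha g hg, hb g hg]
  smul_mem' := by
    intro c a ha g hg
    have h1 : cx (c • a) = (c : ℂ) • cx a := by
      funext J
      simp [cx]
    have h2 := map_smul (actL gᵀ k) (c : ℂ) (cx a)
    change act gᵀ ((c : ℂ) • cx a) = (c : ℂ) • act gᵀ (cx a) at h2
    rw [h1, h2, ha g hg]

theorem mem_IS {P : Matrix ι ι ℂ → Prop} {t : (Fin k → ι) → ℚ} :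
    t ∈ IS P k ↔ ∀ g, P g → act gᵀ (cx t) = cx t := Iff.rfl

theorem IS_sys (P : Matrix ι ι ℂ → Prop) (R : Matrix ι ι ℚ)
    (hR : ∀ g, P g → g * R.map (fun q : ℚ => (q : ℂ)) * gᵀ = R.map (fun q : ℚ => (q : ℂ))) :
    Sys R (IS P) where
  unit := by
    intro g _
    funext I
    unfold act cx
    simp
  mul := by
    intro k l f f' hf hf' g hg
    have h1 := act_mul gᵀ (cx f) (cx f')
    rw [hf g hg, hf' g hg] at h1
    have h2 : cx (fun J : Fin (k + l) → ι =>
        f (fun i => J (Fin.castAdd l i)) * f' (fun i => J (Fin.natAdd k i))) =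
        fun J : Fin (k + l) → ι =>
          cx f (fun i => J (Fin.castAdd l i)) * cx f' (fun i => J (Fin.natAdd k i)) := by
      funext J
      simp [cx]
    rw [h2, h1]
  perm := by
    intro k σ f hf g hg
    have h1 := act_perm gᵀ σ (cx f)
    rw [hf g hg] at h1
    exact h1
  con := by
    intro k f hf g hg
    have h1 := act_con g _ (hR g hg) (cx f)
    rw [hf g hg] at h1
    have h2 : cx (fun J : Fin k → ι => ∑ p, ∑ q, R p q * f (Fin.append J ![p, q])) =
        fun J : Fin k → ι => ∑ p, ∑ q, R.map (fun q : ℚ => (q : ℂ)) p q *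
          cx f (Fin.append J ![p, q]) := by
      funext J
      simp [cx]
    rw [h2, h1]

end gen

section
variable {n w k : ℕ} {V : HS n} {W : HW w} {Γ : Fin n → Matrix (Fin w) (Fin w) ℚ} {c : ℚ}
  {A : ∀ k : ℕ, Submodule ℚ ((Fin k → Fin n ⊕ Fin w) → ℚ)} {U U' : Matrix (Fin n) (Fin n) ℂ}

/-- the action on the trilinear forms -/
theorem act_tri (a : Matrix (Fin n) (Fin n) ℂ) (d : Matrix (Fin w) (Fin w) ℂ)
    (C : Fin n → Matrix (Fin w) (Fin w) ℚ)
    (h : ∀ i, ∑ j, a j i • (dᵀ * mC (C j) * d) = mC (C i)) :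
    act (fromBlocks a 0 0 d)ᵀ (cx (tri C)) = cx (tri C) := by
  funext I
  set g : Matrix (Fin n ⊕ Fin w) (Fin n ⊕ Fin w) ℂ := fromBlocks a 0 0 d with hg
  obtain ⟨M, hMdef⟩ : ∃ M : Fin n → Matrix (Fin n ⊕ Fin w) (Fin n ⊕ Fin w) ℂ,
      ∀ j, M j = fromBlocks 0 0 0 (mC (C j)) := ⟨fun j => fromBlocks 0 0 0 (mC (C j)), fun _ => rfl⟩
  have hM : ∀ j, (fun L : Fin 2 → Fin n ⊕ Fin w => M j (L 0) (L 1)) =
      fun L => ((fromBlocks 0 0 0 (C j) (L 0) (L 1) : ℚ) : ℂ) := by
    intro j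
    funext L
    rw [hMdef]
    rcases h0 : L 0 with a | a <;> rcases h1 : L 1 with b | b <;> simp [fromBlocks, mC]
  have h1 : act gᵀ (cx (tri C)) I =
      ∑ j, g (Sum.inl j) (I 0) * (gᵀ * M j * g) (I 1) (I 2) := by
    have h2 : ∀ j, (gᵀ * M j * g) (I 1) (I 2) =
        ∑ L : Fin 2 → Fin n ⊕ Fin w, (∏ s, gᵀ (I s.succ) (L s)) *
          ((fromBlocks 0 0 0 (C j) (L 0) (L 1) : ℚ) : ℂ) := by
      intro j
      have h3 := congrFun (act_bil g (M j)) (fun s => I s.succ)
      rw [hM] at h3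
      exact h3.symm
    unfold act
    rw [Pool.Agent.Y761.TS.sum_cons, Fintype.sum_sum_type]
    have h4 : ∑ p : Fin w, ∑ L : Fin 2 → Fin n ⊕ Fin w,
        (∏ s, gᵀ (I s) ((Fin.cons (Sum.inr p) L : Fin 3 → Fin n ⊕ Fin w) s)) *
          cx (tri C) (Fin.cons (Sum.inr p) L : Fin 3 → Fin n ⊕ Fin w) = 0 := by
      refine Finset.sum_eq_zero fun p _ => Finset.sum_eq_zero fun L _ => ?_
      have : tri C (Fin.cons (Sum.inr p) L : Fin 3 → Fin n ⊕ Fin w) = 0 := rfl
      rw [cx, this]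
      simp
    rw [h4, add_zero]
    refine Finset.sum_congr rfl fun j _ => ?_
    rw [h2, Finset.mul_sum]
    refine Finset.sum_congr rfl fun L _ => ?_
    rw [Fin.prod_univ_succ, mul_assoc]
    rfl
  rw [h1]
  have h5 : ∀ j, gᵀ * M j * g = fromBlocks 0 0 0 (dᵀ * mC (C j) * d) := by
    intro j
    rw [hMdef, hg, fromBlocks_transpose, fromBlocks_multiply, fromBlocks_multiply]
    simp
  simp only [h5]
  unfold cx tri
  rcases h0 : I 0 with i | i
  · have h6 : (Sum.elim (fun i => fromBlocks 0 0 0 (C i) (I 1) (I 2)) (fun _ => 0)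
        (Sum.inl i : Fin n ⊕ Fin w) : ℚ) = fromBlocks 0 0 0 (C i) (I 1) (I 2) := rfl
    rw [h6]
    have h7 : ∀ j, g (Sum.inl j) (Sum.inl i) = a j i := fun j => rfl
    simp only [h7]
    rcases h1 : I 1 with p | p <;> rcases h2 : I 2 with q | q
    · simp
    · simp
    · simp
    · simp only [fromBlocks_apply₂₂]
      have h8 := congrFun (congrFun (h i) p) q
      rw [Matrix.sum_apply] at h8
      simp only [Matrix.smul_apply, smul_eq_mul] at h8
      exact h8
  · have h7 : ∀ j, g (Sum.inl j) (Sum.inr i) = 0 := fun j => rfl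
    simp [h7]

/-- the number of variables in `V` -/
def nV (J : Fin k → Fin n ⊕ Fin w) : ℕ := (univ.filter fun s => (J s).isLeft = true).card

/-- changing the sign on `V` -/
theorem act_sgn (ε η : ℂ) (a : Matrix (Fin n) (Fin n) ℂ) (d : Matrix (Fin w) (Fin w) ℂ)
    (f : (Fin k → Fin n ⊕ Fin w) → ℂ) (hf : ∀ J, f J ≠ 0 → ε ^ nV J = η) :
    act (fromBlocks (ε • a) 0 0 d)ᵀ f = η • act (fromBlocks a 0 0 d)ᵀ f := by
  funext I
  unfold act
  rw [Pi.smul_apply, smul_eq_mul, Finset.mul_sum]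
  refine Finset.sum_congr rfl fun J _ => ?_
  by_cases hJ : f J = 0
  · rw [hJ, mul_zero, mul_zero, mul_zero]
  · have h1 : ∀ s, (fromBlocks (ε • a) 0 0 d)ᵀ (I s) (J s) =
        (if (J s).isLeft = true then ε else 1) * (fromBlocks a 0 0 d)ᵀ (I s) (J s) := by
      intro s
      rcases h0 : J s with p | p <;> rcases h1 : I s with q | q <;>
        simp [fromBlocks, Matrix.transpose_apply]
    simp only [h1]
    rw [Finset.prod_mul_distrib]
    have h2 : ∏ s, (if (J s).isLeft = true then ε else 1) = η := by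
      rw [← hf J hJ, Finset.prod_ite, Finset.prod_const_one, mul_one, Finset.prod_const]
      rfl
    rw [h2]
    ring

end

end

end Pool.Agent.Y89.TU
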