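import Pool.Agent.Y89.TU.Lnk2
import Pool.Agent.Y89.TS.Zol
import Pool.Agent.Y960.TU.Weil2
import Pool.Agent.Y165.TU.NORM
import Pool.Agent.Y657.TV.IDEAL

/-!
# Linked systems: main theorem
-/

open Matrix Finset Function

set_option linter.unusedSectionVars false

namespace Pool.Agent.Y89.TU

noncomputable section

open Pool.Agent.W544.PG (HS HW mC cspan cx)
open Pool.Agent.Y89.KS
open Pool.Agent.Y89.TS
open Pool.Agent.Y761.TS (act_act act_one actL)

section
variable {n w k : ℕ} {V : HS n} {W : HW w} {Γ : Fin n → Matrix (Fin w) (Fin w) ℚ} {c : ℚ}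
  {A : ∀ k : ℕ, Submodule ℚ ((Fin k → Fin n ⊕ Fin w) → ℚ)} {U U' : Matrix (Fin n) (Fin n) ℂ}

/-! ### The Tannaka-Schrijver theorem on `V ⊕ W` -/

theorem HV_real (V : HS n) : (HV V).map cc = HV V := by
  unfold HV
  rw [mul_map', mC_map']
  congr 1
  have h0 : ∀ Z : Matrix (Fin n) (Fin n) ℂ, ((2 : ℂ) • Z - 1).map cc = (2 : ℂ) • Z.map cc - 1 := by
    intro Z
    ext a b
    by_cases hab : a = b
    · subst hab; simp
    · simp [hab]
  have h1 : ((2 : ℂ) • (V.x * V.x) - 1).map cc = (2 : ℂ) • (V.x.map cc * V.x.map cc) - 1 := by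
    rw [h0, mul_map']
  have h2 : V.x.map cc = -V.x := V.real
  rw [h1, h2, neg_mul_neg]

/-- the hermitian form of `V ⊕ W` -/
def HT (V : HS n) (W : HW w) : Matrix (Fin n ⊕ Fin w) (Fin n ⊕ Fin w) ℂ :=
  fromBlocks (HV V) 0 0 (HWm W)

theorem HT_real (V : HS n) (W : HW w) : (HT V W).map (starRingEnd ℂ) = HT V W := by
  unfold HT
  rw [fromBlocks_map]
  have h1 : (HV V).map (starRingEnd ℂ) = HV V := HV_real V
  have h2 : (HWm W).map (starRingEnd ℂ) = HWm W := HW_real W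
  rw [h1, h2, Matrix.map_zero _ (map_zero _), Matrix.map_zero _ (map_zero _)]

theorem HT_herm (V : HS n) (W : HW w) : (HT V W)ᴴ = HT V W := by
  unfold HT
  rw [fromBlocks_conjTranspose, HV_herm, HW_herm, conjTranspose_zero, conjTranspose_zero]

/-- the real form -/
def GT (V : HS n) (W : HW w) : Matrix (Fin n ⊕ Fin w) (Fin n ⊕ Fin w) ℝ :=
  (HT V W).map Complex.re

theorem rc_GT (V : HS n) (W : HW w) : rc (GT V W) = HT V W := by
  ext a b
  have h := congrFun (congrFun (HT_real V W) a) b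
  rw [Matrix.map_apply] at h
  exact Complex.conj_eq_iff_re.1 h

theorem GT_symm (V : HS n) (W : HW w) : (GT V W)ᵀ = GT V W := by
  ext a b
  have h1 := congrFun (congrFun (HT_herm V W) a) b
  rw [Matrix.conjTranspose_apply] at h1
  change (HT V W b a).re = (HT V W a b).re
  rw [← h1]
  simp

theorem GT_pos (V : HS n) (W : HW w) (v : Fin n ⊕ Fin w → ℝ) (hv : v ≠ 0) :
    0 < v ⬝ᵥ GT V W *ᵥ v := by
  have h0 : (fun i => (v i : ℂ)) ≠ 0 := by
    intro h
    apply hv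
    funext i
    have := congrFun h i
    exact Complex.ofReal_eq_zero.1 this
  have h1 := sum_pos V W (fun i => (v i : ℂ)) h0
  change 0 < (star (fun i => (v i : ℂ)) ⬝ᵥ HT V W *ᵥ (fun i => (v i : ℂ))).re at h1
  have h2 : (star (fun i => (v i : ℂ)) ⬝ᵥ HT V W *ᵥ (fun i => (v i : ℂ))) =
      ((v ⬝ᵥ GT V W *ᵥ v : ℝ) : ℂ) := by
    rw [← rc_GT]
    simp [dotProduct, Matrix.mulVec]
  rw [h2, Complex.ofReal_re] at h1
  exact h1

theorem exists_ST (V : HS n) (W : HW w) :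
    ∃ S : Matrix (Fin n ⊕ Fin w) (Fin n ⊕ Fin w) ℝ, Sᵀ * S = GT V W ∧ S.det ≠ 0 := by
  obtain ⟨S, hS⟩ := real_root (GT V W) (GT_symm V W) (GT_pos V W)
  refine ⟨S, hS, fun h0 => ?_⟩
  obtain ⟨v, hv, hv0⟩ := Matrix.exists_mulVec_eq_zero_iff.2 h0
  have h1 := GT_pos V W v hv
  rw [← hS, ← Matrix.mulVec_mulVec, hv0, Matrix.mulVec_zero, dotProduct_zero] at h1
  exact lt_irrefl _ h1

/-- the Weil operator of `V ⊕ W`, up to sign -/
def CT (V : HS n) (W : HW w) : Matrix (Fin n ⊕ Fin w) (Fin n ⊕ Fin w) ℂ :=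
  fromBlocks (1 - (2 : ℂ) • (V.x * V.x)) 0 0 (JW W)

theorem HV_inv (V : HS n) :
    HV V * (((2 : ℂ) • (V.x * V.x) - 1) * (mC V.Q)⁻¹) = 1 := by
  have h4 : V.x * V.x * (V.x * V.x) = V.x * V.x := by
    rw [← Matrix.mul_assoc, V.cube]
  have h1 : ((2 : ℂ) • (V.x * V.x) - 1) * ((2 : ℂ) • (V.x * V.x) - 1) = 1 := by
    rw [Matrix.sub_mul, Matrix.mul_sub, Matrix.mul_sub, Matrix.mul_one, Matrix.one_mul,
      Matrix.one_mul, Matrix.smul_mul, Matrix.mul_smul, h4, smul_smul]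
    have : ((2 : ℂ) * 2) • (V.x * V.x) = (2 : ℂ) • (V.x * V.x) + (2 : ℂ) • (V.x * V.x) := by
      rw [← add_smul]; norm_num
    rw [this]
    abel
  unfold HV
  rw [Matrix.mul_assoc, ← Matrix.mul_assoc ((2 : ℂ) • (V.x * V.x) - 1), h1, Matrix.one_mul, QR]

theorem HT_inv (V : HS n) (W : HW w) :
    (HT V W)⁻¹ = -(CT V W) * fromBlocks (mC V.Q)⁻¹ 0 0 (mC W.E)⁻¹ := by
  apply Matrix.inv_eq_right_inv
  unfold HT CT
  rw [fromBlocks_neg, fromBlocks_multiply, fromBlocks_multiply]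
  simp only [neg_zero, Matrix.mul_zero, Matrix.zero_mul, add_zero, zero_add]
  have h1 := HV_inv V
  have h2 : HWm W * (-(JW W) * (mC W.E)⁻¹) = 1 := by
    unfold HWm
    rw [Matrix.mul_assoc, ← Matrix.mul_assoc ((2 * Complex.I) • W.y), Matrix.mul_neg]
    change mC W.E * (-(JW W * JW W) * (mC W.E)⁻¹) = 1
    rw [JW_sq, neg_neg, Matrix.one_mul, Einv]
  rw [neg_sub, h1, h2, fromBlocks_one]

theorem act_neg' {ι : Type} [Fintype ι] (g : Matrix ι ι ℂ) {k : ℕ} (f : (Fin k → ι) → ℂ) :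
    act (-g) f = ((-1 : ℂ) ^ k) • act g f := by
  funext I
  unfold act
  rw [Pi.smul_apply, smul_eq_mul, Finset.mul_sum]
  refine Finset.sum_congr rfl fun J _ => ?_
  have h1 : ∏ s, (-g) (I s) (J s) = (-1 : ℂ) ^ k * ∏ s, g (I s) (J s) := by
    simp only [Matrix.neg_apply]
    rw [Finset.prod_neg]
    simp
  rw [h1, mul_assoc]

theorem conj_span' {ι : Type} [Fintype ι] {k : ℕ} {B : Submodule ℚ ((Fin k → ι) → ℚ)}
    {f : (Fin k → ι) → ℂ} (hf : f ∈ cspan B) :
    (fun J => starRingEnd ℂ (f J)) ∈ cspan B := by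
  unfold cspan at hf ⊢
  induction hf using Submodule.span_induction with
  | mem f hf =>
    obtain ⟨t, ht, rfl⟩ := hf
    refine Submodule.subset_span ⟨t, ht, ?_⟩
    funext J
    simp [cx]
  | zero =>
    convert Submodule.zero_mem _ using 1
    funext J
    simp
  | add a b _ _ ha hb =>
    convert Submodule.add_mem _ ha hb using 1
    funext J
    simp
  | smul c a _ ha =>
    convert Submodule.smul_mem _ (starRingEnd ℂ c) ha using 1
    funext J
    simp

theorem weil_span' (hweil : S_weil2) (hH : ∀ k : ℕ, ∀ t ∈ A k, IsHodge V W t) {k : ℕ}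
    {f : (Fin k → Fin n ⊕ Fin w) → ℂ} (hf : f ∈ AC A k) : act (-(CT V W))ᵀ f ∈ AC A k := by
  rw [Matrix.transpose_neg, act_neg']
  refine Submodule.smul_mem _ _ ?_
  have h1 : der (Xop V W) f = 0 :=
    LA_span (X := Xop V W) (fun k t ht => der_cx.1 (hH k t ht)) hf
  have h2 := hweil n w V.x W.y V.cube W.sq k f h1
  unfold CT
  rw [h2]
  exact hf

theorem dsc' {ι : Type} [Fintype ι] {k : ℕ} {B : Submodule ℚ ((Fin k → ι) → ℚ)}
    {t : (Fin k → ι) → ℚ} (h : cx t ∈ cspan B) : t ∈ B := by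
  refine dsc2 _ B t ?_
  refine Submodule.span_mono ?_ h
  rintro g ⟨s, hs, rfl⟩
  exact ⟨s, hs, rfl⟩

/-- a class invariant under the symmetries of the system is in the system -/
theorem tann (hT : S_T0R) (hweil : S_weil2) (hA : Cycles V W A)
    (hH : ∀ k : ℕ, ∀ t ∈ A k, IsHodge V W t) {t : (Fin k → Fin n ⊕ Fin w) → ℚ}
    (ht : ∀ g : Matrix (Fin n ⊕ Fin w) (Fin n ⊕ Fin w) ℂ,
      (∀ (l : ℕ), ∀ x ∈ AC A l, act gᵀ x = x) → act gᵀ (cx t) = cx t) : t ∈ A k := by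
  apply dsc'
  obtain ⟨S, hS, hS0⟩ := exists_ST V W
  refine hT (Fin n ⊕ Fin w) (fromBlocks (mC V.Q)⁻¹ 0 0 (mC W.E)⁻¹) (-(CT V W)) S (AC A)
    (sysC hA) hS0 ?_ (fun k f hf => conj_span' hf) (fun k f hf => weil_span' hweil hH hf) k _ ?_
  · rw [hS, rc_GT, HT_inv]
  · intro g _ hg
    exact ht g hg

/-! ### The system of the invariants -/

/-- the symmetries with sign `1` -/
def SP (V : HS n) (W : HW w) (Γ : Fin n → Matrix (Fin w) (Fin w) ℚ)
    (g : Matrix (Fin n ⊕ Fin w) (Fin n ⊕ Fin w) ℂ) : Prop :=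
  ∃ a a' d d', Sym V W Γ g a a' d d' 1

theorem Sym.R {g : Matrix (Fin n ⊕ Fin w) (Fin n ⊕ Fin w) ℂ} {a a' : Matrix (Fin n) (Fin n) ℂ}
    {d d' : Matrix (Fin w) (Fin w) ℂ} {ε : ℂ} (hg : Sym V W Γ g a a' d d' ε) :
    g * fromBlocks (mC V.Q)⁻¹ 0 0 (mC W.E)⁻¹ * gᵀ = fromBlocks (mC V.Q)⁻¹ 0 0 (mC W.E)⁻¹ := by
  have h1 : a * (mC V.Q)⁻¹ * aᵀ = (mC V.Q)⁻¹ := by
    have h3 : a'ᵀ * aᵀ = 1 := by rw [← transpose_mul, hg.a1, transpose_one]
    calc a * (mC V.Q)⁻¹ * aᵀ = a * (a' * (mC V.Q)⁻¹ * a'ᵀ) * aᵀ := by rw [hg.aQ]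
      _ = (a * a') * (mC V.Q)⁻¹ * (a'ᵀ * aᵀ) := by simp only [Matrix.mul_assoc]
      _ = (mC V.Q)⁻¹ := by rw [hg.a1, h3, Matrix.one_mul, Matrix.mul_one]
  have h2 : d * (mC W.E)⁻¹ * dᵀ = (mC W.E)⁻¹ := by
    have h3 : (mC W.E)⁻¹ * dᵀ = d' * (mC W.E)⁻¹ := by
      calc (mC W.E)⁻¹ * dᵀ = (mC W.E)⁻¹ * (dᵀ * mC W.E) * (mC W.E)⁻¹ := by
            rw [Matrix.mul_assoc, Matrix.mul_assoc, Einv, Matrix.mul_one]
        _ = d' * (mC W.E)⁻¹ := by
            rw [hg.dE, ← Matrix.mul_assoc, Einv', Matrix.one_mul]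
    rw [Matrix.mul_assoc, h3, ← Matrix.mul_assoc, hg.d1, Matrix.one_mul]
  rw [hg.eq, fromBlocks_transpose, fromBlocks_multiply, fromBlocks_multiply]
  simp only [transpose_zero, Matrix.mul_zero, Matrix.zero_mul, add_zero, zero_add]
  rw [h1, h2]

/-- vectors killed by all skew operators -/
theorem van (hU : Uᵀ * ((c : ℂ) • mC V.Q) * U = 1) (hUU : U * U' = 1) (hn : 2 ≤ n) (c0 : c ≠ 0)
    {u : Fin n → ℂ} (hu : ∀ z : Matrix (Fin n) (Fin n) ℂ, z ∈ g0 V → zᵀ *ᵥ u = 0)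
    (hV : (V.x * V.x).trace = 2) (hS : V.Scalar) : u = 0 := by
  have c0' : (c : ℂ) ≠ 0 := by exact_mod_cast c0
  have h4 : ∀ a, U.col a ⬝ᵥ u = 0 := by
    intro a
    obtain ⟨b, hb⟩ : ∃ b : Fin n, b ≠ a := by
      have : Nontrivial (Fin n) := Fin.nontrivial_iff_two_le.2 hn
      exact exists_ne a
    have h5 := hu _ (wdg_mem hV hS (U.col a) (U.col b))
    unfold wdg at h5
    rw [transpose_sub, Matrix.transpose_vecMulVec, Matrix.transpose_vecMulVec,
      Matrix.sub_mulVec, Matrix.vecMulVec_mulVec, Matrix.vecMulVec_mulVec] at h5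
    have h6 := congrArg (fun v => U.col b ⬝ᵥ v) h5
    simp only [dotProduct_sub, dotProduct_zero] at h6
    have h7 : ∀ (t : ℂ) (v : Fin n → ℂ), U.col b ⬝ᵥ (MulOpposite.op t • v) = t * (U.col b ⬝ᵥ v) := by
      intro t v
      rw [op_smul_eq_smul, dotProduct_smul, smul_eq_mul]
    rw [h7, h7] at h6
    have h8 := col_form (V := V) hU b b
    rw [if_pos rfl] at h8
    have h9 := col_form (V := V) hU b a
    rw [if_neg hb] at h9
    have h9' : U.col b ⬝ᵥ mC V.Q *ᵥ U.col a = 0 := (mul_eq_zero.1 h9).resolve_left c0'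
    rw [h9', mul_zero, sub_zero] at h6
    have h10 : U.col b ⬝ᵥ mC V.Q *ᵥ U.col b ≠ 0 := by
      intro h0
      rw [h0, mul_zero] at h8
      exact zero_ne_one h8
    exact (mul_eq_zero.1 h6).resolve_right h10
  have h5 : Uᵀ *ᵥ u = 0 := by
    funext a
    exact h4 a
  have h7 : U'ᵀ * Uᵀ = 1 := by rw [← transpose_mul, hUU, transpose_one]
  calc u = (U'ᵀ * Uᵀ) *ᵥ u := by rw [h7, Matrix.one_mulVec]
    _ = 0 := by rw [← Matrix.mulVec_mulVec, h5, Matrix.mulVec_zero]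

theorem two_le (V : HS n) (hV : (V.x * V.x).trace = 2) : 2 ≤ n := by
  by_contra hn
  have h5 : n = 0 ∨ n = 1 := by omega
  rcases h5 with rfl | rfl
  · rw [Matrix.trace] at hV
    simp at hV
  · have h2 := congrFun (congrFun V.skew 0) 0
    simp only [Matrix.add_apply, Matrix.mul_apply, Fin.sum_univ_one, Matrix.transpose_apply,
      Matrix.zero_apply, Fin.isValue] at h2
    have h3 : mC V.Q 0 0 ≠ 0 := by
      intro h3
      apply Qdet V
      rw [Matrix.det_unique]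
      exact h3
    have h4 : V.x 0 0 * mC V.Q 0 0 = 0 := by linear_combination h2 / 2
    have h5 : V.x 0 0 = 0 := (mul_eq_zero.1 h4).resolve_right h3
    rw [Matrix.trace_fin_one, Matrix.mul_apply, Fin.sum_univ_one, h5, zero_mul] at hV
    norm_num at hV

/-- there are no Hodge classes in one variable -/
theorem lin_zero (hV : (V.x * V.x).trace = 2) (hS : V.Scalar) (h : Cliff V W Γ c)
    {t : (Fin 1 → Fin n ⊕ Fin w) → ℚ} (ht : IsHodge V W t) : t = 0 := by
  obtain ⟨U, U', hU, hUU, -⟩ := exists_onb V h.ne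
  have h1 : ∀ p : Fin n ⊕ Fin w, ∑ q, Xop V W q p * (t (fun _ => q) : ℂ) = 0 := by
    intro p
    have h2 := ht (fun _ => p)
    rw [Fin.sum_univ_one] at h2
    have h3 : ∀ q, Function.update (fun _ : Fin 1 => p) 0 q = fun _ => q := by
      intro q
      funext i
      rw [Subsingleton.elim i 0, Function.update_self]
    simp only [h3] at h2
    exact h2
  have hu : (fun i : Fin n => (t (fun _ => Sum.inl i) : ℂ)) = 0 := by
    refine van hU hUU (two_le V hV) h.ne ?_ hV hS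
    intro z hz
    let L : Submodule ℂ (Matrix (Fin n) (Fin n) ℂ) :=
      { carrier := {z | zᵀ *ᵥ (fun i : Fin n => (t (fun _ => Sum.inl i) : ℂ)) = 0}
        zero_mem' := by simp
        add_mem' := by
          intro a b ha hb
          rw [Set.mem_ofPred_eq] at *
          rw [transpose_add, Matrix.add_mulVec, ha, hb, add_zero]
        smul_mem' := by
          intro s a ha
          rw [Set.mem_ofPred_eq] at *
          rw [transpose_smul, Matrix.smul_mulVec, ha, smul_zero] }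
    refine hz L ?_ ?_
    · intro a ha b hb
      change aᵀ *ᵥ _ = 0 at ha
      change bᵀ *ᵥ _ = 0 at hb
      change (a * b - b * a)ᵀ *ᵥ _ = 0
      rw [transpose_sub, transpose_mul, transpose_mul, Matrix.sub_mulVec, ← Matrix.mulVec_mulVec,
        ← Matrix.mulVec_mulVec, ha, hb, Matrix.mulVec_zero, Matrix.mulVec_zero, sub_zero]
    · intro σ
      change (V.x.map σ)ᵀ *ᵥ (fun i : Fin n => (t (fun _ => Sum.inl i) : ℂ)) = 0
      funext p
      have h2 := congrArg σ (h1 (Sum.inl p))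
      rw [map_sum, map_zero, Fintype.sum_sum_type] at h2
      simp only [map_mul, map_ratCast] at h2
      have h3 : ∀ q : Fin w, Xop V W (Sum.inr q) (Sum.inl p) = 0 := fun q => rfl
      simp only [h3, map_zero, zero_mul, Finset.sum_const_zero, add_zero] at h2
      exact h2
  have hv : (fun i : Fin w => (t (fun _ => Sum.inr i) : ℂ)) = 0 := by
    have h2 : W.yᵀ *ᵥ (fun i : Fin w => (t (fun _ => Sum.inr i) : ℂ)) = 0 := by
      funext p
      have h2 := h1 (Sum.inr p)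
      rw [Fintype.sum_sum_type] at h2
      have h3 : ∀ q : Fin n, Xop V W (Sum.inl q) (Sum.inr p) = 0 := fun q => rfl
      simp only [h3, zero_mul, Finset.sum_const_zero, zero_add] at h2
      exact h2
    have h3 : (4 : ℂ) • (W.yᵀ * W.yᵀ) = 1 := by
      rw [← transpose_mul, ← transpose_smul, W.sq, transpose_one]
    calc (fun i : Fin w => (t (fun _ => Sum.inr i) : ℂ))
        = ((4 : ℂ) • (W.yᵀ * W.yᵀ)) *ᵥ (fun i : Fin w => (t (fun _ => Sum.inr i) : ℂ)) := by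
          rw [h3, Matrix.one_mulVec]
      _ = 0 := by
          rw [Matrix.smul_mulVec, ← Matrix.mulVec_mulVec, h2, Matrix.mulVec_zero, smul_zero]
  funext J
  have hJ : J = fun _ => J 0 := by
    funext i
    rw [Subsingleton.elim i 0]
  rw [hJ]
  rcases J 0 with i | i
  · have := congrFun hu i
    simp only [Pi.zero_apply] at this
    rw [Pi.zero_apply]
    exact_mod_cast this
  · have := congrFun hv i
    simp only [Pi.zero_apply] at this
    rw [Pi.zero_apply]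
    exact_mod_cast this

end

end

end Pool.Agent.Y89.TU
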