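import Pool.Agent.Y89.TU.Lnk3

/-!
# Linked systems: main theorem
-/

open Matrix Finset Function

set_option linter.unusedSectionVars false

namespace Pool.Agent.Y89.TU

noncomputable section

open Pool.Agent.W544.PG (HS HW mC cspan cx)
open Pool.Agent.Y89.KS
open Pool.Agent.Y89.TS
open Pool.Agent.Y761.TS (act_act act_one actL)

section
variable {n w k : ℕ} {V : HS n} {W : HW w} {Γ : Fin n → Matrix (Fin w) (Fin w) ℚ} {c : ℚ}
  {A : ∀ k : ℕ, Submodule ℚ ((Fin k → Fin n ⊕ Fin w) → ℚ)} {U U' : Matrix (Fin n) (Fin n) ℂ}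

theorem Sym.Qa {g : Matrix (Fin n ⊕ Fin w) (Fin n ⊕ Fin w) ℂ} {a a' : Matrix (Fin n) (Fin n) ℂ}
    {d d' : Matrix (Fin w) (Fin w) ℂ} {ε : ℂ} (hg : Sym V W Γ g a a' d d' ε) :
    aᵀ * mC V.Q * a = mC V.Q := by
  have h1 : a' * (mC V.Q)⁻¹ * a'ᵀ = (mC V.Q)⁻¹ := hg.aQ
  have h2 : a'ᵀ * aᵀ = 1 := by rw [← transpose_mul, hg.a1, transpose_one]
  have h3 : a' * (mC V.Q)⁻¹ = (mC V.Q)⁻¹ * aᵀ := by
    calc a' * (mC V.Q)⁻¹ = a' * (mC V.Q)⁻¹ * (a'ᵀ * aᵀ) := by rw [h2, Matrix.mul_one]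
      _ = (a' * (mC V.Q)⁻¹ * a'ᵀ) * aᵀ := by simp only [Matrix.mul_assoc]
      _ = _ := by rw [h1]
  calc aᵀ * mC V.Q * a = (mC V.Q * (mC V.Q)⁻¹) * aᵀ * mC V.Q * a := by
        rw [QR, Matrix.one_mul]
    _ = mC V.Q * ((mC V.Q)⁻¹ * aᵀ) * mC V.Q * a := by simp only [Matrix.mul_assoc]
    _ = mC V.Q * a' * ((mC V.Q)⁻¹ * mC V.Q) * a := by
        rw [← h3]; simp only [Matrix.mul_assoc]
    _ = mC V.Q := by rw [RQ, Matrix.mul_one, Matrix.mul_assoc, hg.a2, Matrix.mul_one]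

theorem cx_blk (M : Matrix (Fin n) (Fin n) ℚ) (N : Matrix (Fin w) (Fin w) ℚ) :
    cx (fun J : Fin 2 → Fin n ⊕ Fin w => fromBlocks M 0 0 N (J 0) (J 1)) =
      fun J : Fin 2 → Fin n ⊕ Fin w => fromBlocks (mC M) 0 0 (mC N) (J 0) (J 1) := by
  funext J
  unfold cx
  rcases h0 : J 0 with a | a <;> rcases h1 : J 1 with b | b <;> simp [fromBlocks, mC, h0, h1]

/-- the invariants of the symmetries with sign `1` -/
theorem IS_cycles (hV : (V.x * V.x).trace = 2) (hS : V.Scalar) (h : Cliff V W Γ c) :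
    Cycles V W (IS (SP V W Γ)) where
  sys := by
    apply IS_sys
    rintro g ⟨a, a', d, d', hg⟩
    rw [Rtot]
    exact hg.R
  linear := by
    intro t ht
    rw [lin_zero hV hS h ht]
    exact Submodule.zero_mem _
  diagonal := by
    rintro g ⟨a, a', d, d', hg⟩
    have e : cx (fun J : Fin 2 → Fin n ⊕ Fin w => fromBlocks V.Q 0 0 0 (J 0) (J 1)) =
      fun J : Fin 2 → Fin n ⊕ Fin w => fromBlocks (mC V.Q) 0 0 (mC 0) (J 0) (J 1) := cx_blk _ _
    have e0 : mC (0 : Matrix (Fin w) (Fin w) ℚ) = 0 := by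
      ext a b; simp [mC]
    rw [e, e0, act_bil]
    have h1 : gᵀ * fromBlocks (mC V.Q) 0 0 0 * g = fromBlocks (mC V.Q) 0 0 0 := by
      rw [hg.eq, fromBlocks_transpose, fromBlocks_multiply, fromBlocks_multiply]
      simp only [transpose_zero, Matrix.mul_zero, Matrix.zero_mul, add_zero]
      rw [hg.Qa]
    rw [h1]
  lefschetz := by
    intro N hN
    rintro g ⟨a, a', d, d', hg⟩
    have e : cx (fun J : Fin 2 → Fin n ⊕ Fin w => fromBlocks 0 0 0 N (J 0) (J 1)) =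
      fun J : Fin 2 → Fin n ⊕ Fin w => fromBlocks (mC 0) 0 0 (mC N) (J 0) (J 1) := cx_blk _ _
    have e0 : mC (0 : Matrix (Fin n) (Fin n) ℚ) = 0 := by
      ext a b; simp [mC]
    rw [e0] at e
    have h2 : W.yᵀ * mC N + mC N * W.y = 0 := by
      have h3 := der_cx.1 hN
      rw [e, bil_der] at h3
      have h4 := bil_zero' h3
      unfold Xop at h4
      rw [fromBlocks_transpose, fromBlocks_multiply, fromBlocks_multiply,
        fromBlocks_add, ← fromBlocks_zero, fromBlocks_inj] at h4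
      simp only [Matrix.mul_zero, Matrix.zero_mul, add_zero, zero_add] at h4
      exact h4.2.2.2
    -- the endomorphism
    have hEi : (mC W.E)⁻¹ = mC W.E⁻¹ := by
      apply Matrix.inv_eq_right_inv
      have h2 : mC (W.E * W.E⁻¹) = mC W.E * mC W.E⁻¹ := mC_mul' _ _
      rw [Matrix.mul_nonsing_inv _ (isUnit_iff_ne_zero.2 (dE W))] at h2
      rw [← h2]
      ext a b
      by_cases hab : a = b
      · subst hab; simp [mC]
      · simp [mC, hab]
    have hDe : mC (W.E⁻¹ * N) = (mC W.E)⁻¹ * mC N := by rw [mC_mul', hEi]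
    have hEs : W.yᵀ * mC W.E = -(mC W.E * W.y) := eq_neg_of_add_eq_zero_left W.skew
    have hD : mC (W.E⁻¹ * N) * W.y = W.y * mC (W.E⁻¹ * N) := by
      rw [hDe]
      have h5 : mC N = mC W.E * ((mC W.E)⁻¹ * mC N) := by
        rw [← Matrix.mul_assoc, Einv, Matrix.one_mul]
      apply E_cancel W
      calc mC W.E * ((mC W.E)⁻¹ * mC N * W.y) = mC N * W.y := by
            rw [← Matrix.mul_assoc, ← h5]
        _ = -(W.yᵀ * mC N) := eq_neg_of_add_eq_zero_right h2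
        _ = -(W.yᵀ * (mC W.E * ((mC W.E)⁻¹ * mC N))) := by rw [← h5]
        _ = mC W.E * (W.y * ((mC W.E)⁻¹ * mC N)) := by
            rw [← Matrix.mul_assoc, hEs, Matrix.neg_mul, neg_neg, Matrix.mul_assoc]
    have hdD := hg.cD _ hD
    rw [e, act_bil]
    have h6 : dᵀ * mC N * d = mC N := by
      have h5 : mC N = mC W.E * mC (W.E⁻¹ * N) := by
        rw [hDe, ← Matrix.mul_assoc, Einv, Matrix.one_mul]
      calc dᵀ * mC N * d = dᵀ * mC W.E * (mC (W.E⁻¹ * N) * d) := by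
            conv_lhs => rw [h5]
            simp only [Matrix.mul_assoc]
        _ = mC W.E * (d' * d) * mC (W.E⁻¹ * N) := by
            rw [hg.dE, ← hdD]; simp only [Matrix.mul_assoc]
        _ = mC N := by rw [hg.d2, Matrix.mul_one, ← h5]
    have h1 : gᵀ * fromBlocks 0 0 0 (mC N) * g = fromBlocks 0 0 0 (mC N) := by
      rw [hg.eq, fromBlocks_transpose, fromBlocks_multiply, fromBlocks_multiply]
      simp only [transpose_zero, Matrix.mul_zero, Matrix.zero_mul, add_zero, zero_add]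
      rw [h6]
    rw [h1]

/-- the Kuga-Satake class is invariant -/
theorem tri_IS (h : Cliff V W Γ c) : tri (fun i => W.E * Γ i) ∈ IS (SP V W Γ) 3 := by
  rintro g ⟨a, a', d, d', hg⟩
  rw [hg.eq]
  apply act_tri
  intro i
  have h1 : ∀ j, mC (W.E * Γ j) = mC W.E * mC (Γ j) := fun j => mC_mul' _ _
  simp only [h1]
  have h2 : ∀ v : Fin n → ℂ, dᵀ * (mC W.E * gm Γ v) * d = mC W.E * (d' * gm Γ v * d) := by
    intro v
    rw [← Matrix.mul_assoc, hg.dE]
    simp only [Matrix.mul_assoc]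
  have h3 : ∀ j, mC (Γ j) = gm Γ (Pi.single j 1) := by
    intro j
    change _ = ∑ i, (Pi.single j (1 : ℂ) : Fin n → ℂ) i • mC (Γ i)
    simp [Pi.single_apply]
  have h4 : ∀ v, d' * gm Γ (a *ᵥ v) * d = gm Γ v := by
    intro v
    have h5 := hg.rel v
    rw [one_smul] at h5
    calc d' * gm Γ (a *ᵥ v) * d = d' * (d * gm Γ v * d') * d := by rw [h5]
      _ = (d' * d) * gm Γ v * (d' * d) := by simp only [Matrix.mul_assoc]
      _ = gm Γ v := by rw [hg.d2, Matrix.one_mul, Matrix.mul_one]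
  have h5 : ∑ j, a j i • (dᵀ * (mC W.E * mC (Γ j)) * d) =
      dᵀ * (mC W.E * gm Γ (a *ᵥ Pi.single i 1)) * d := by
    have h6 : gm Γ (a *ᵥ Pi.single i 1) = ∑ j, a j i • mC (Γ j) := by
      rw [Matrix.mulVec_single_one]
      rfl
    rw [h6, Finset.mul_sum, Finset.mul_sum, Finset.sum_mul]
    refine Finset.sum_congr rfl fun j _ => ?_
    simp only [Matrix.mul_smul, Matrix.smul_mul]
  rw [h5, h2, h4, h3]

/-- **Linked systems contain the Hodge classes in an even number of variables in `V`, and all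
Hodge classes if they contain a class in an odd number of variables in `V`.** -/
theorem linked (hV : (V.x * V.x).trace = 2) (hS : V.Scalar) (hn : Odd n)
    (h : Cliff V W Γ c) (hA : Cycles V W A) (hH : ∀ k : ℕ, ∀ t ∈ A k, IsHodge V W t)
    (hl : Linked V A) {t : (Fin k → Fin n ⊕ Fin w) → ℚ} (ht : IsHodge V W t)
    (hp : (∀ J, t J ≠ 0 → Even (nV J)) ∨
      ∃ (m : ℕ) (f : (Fin m → Fin n ⊕ Fin w) → ℚ), f ∈ A m ∧ f ≠ 0 ∧
        ∀ J, f J ≠ 0 → Odd (nV J)) : t ∈ A k := by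
  refine tann tT0R Pool.Agent.Y960.TU.t_weil2 hA hH fun g hg => ?_
  obtain ⟨a, a', d, d', ε, hs⟩ := exists_sym Pool.Agent.Y657.TV.t_ideal Pool.Agent.Y165.TU.t_NORM
    hV hS hn h hA hH hl hg
  have hs1 : Sym V W Γ (fromBlocks (ε • a) 0 0 d) (ε • a) (ε • a') d d' 1 := by
    refine ⟨rfl, ?_, ?_, hs.d1, hs.d2, ?_, hs.dE, ?_, hs.cD, one_mul 1⟩
    · rw [Matrix.smul_mul, Matrix.mul_smul, smul_smul, hs.sq, one_smul, hs.a1]
    · rw [Matrix.smul_mul, Matrix.mul_smul, smul_smul, hs.sq, one_smul, hs.a2]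
    · rw [transpose_smul, Matrix.smul_mul, Matrix.smul_mul, Matrix.mul_smul, smul_smul, hs.sq,
        one_smul, hs.aQ]
    · intro v
      rw [hs.rel, one_smul, Matrix.smul_mulVec, map_smul]
  have hfix : ∀ {l : ℕ} (s : (Fin l → Fin n ⊕ Fin w) → ℚ), IsHodge V W s →
      act (fromBlocks (ε • a) 0 0 d)ᵀ (cx s) = cx s := by
    intro l s hs'
    have h1 : s ∈ IS (SP V W Γ) l := mainA hV (IS_cycles hV hS h) h (tri_IS h) hs'
    exact h1 _ ⟨_, _, _, _, hs1⟩
  have hcx : ∀ {l : ℕ} (s : (Fin l → Fin n ⊕ Fin w) → ℚ) J, cx s J ≠ 0 → s J ≠ 0 := by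
    intro l s J h0 h1
    apply h0
    simp [cx, h1]
  have hεε : ε = 1 ∨ ε = -1 := mul_self_eq_one_iff.1 hs.sq
  rcases hp with hp | ⟨m, f, hf, hf0, hfo⟩
  · have h2 := act_sgn ε 1 a d (cx t) (fun J hJ => by
      obtain ⟨r, hr⟩ := hp J (hcx t J hJ)
      rw [hr, ← two_mul, pow_mul, pow_two, hs.sq, one_pow])
    rw [one_smul, hfix t ht, ← hs.eq] at h2
    exact h2.symm
  · have h2 := act_sgn ε ε a d (cx f) (fun J hJ => by
      obtain ⟨r, hr⟩ := hfo J (hcx f J hJ)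
      rw [hr, pow_succ, pow_mul, pow_two, hs.sq, one_pow, one_mul])
    rw [hfix f (hH m f hf), ← hs.eq, hg m _ (cx_mem hf)] at h2
    have hε : ε = 1 := by
      rcases hεε with h3 | h3
      · exact h3
      · exfalso
        apply hf0
        funext J
        have h4 := congrFun h2 J
        rw [h3, Pi.smul_apply, smul_eq_mul, neg_one_mul] at h4
        unfold cx at h4
        have h5 : ((f J : ℚ) : ℂ) = 0 := by
          have : (2 : ℂ) * (f J : ℂ) = 0 := by linear_combination h4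
          exact (mul_eq_zero.1 this).resolve_left two_ne_zero
        rw [Pi.zero_apply]
        exact_mod_cast h5
    have h3 := hfix t ht
    rw [hε, one_smul, ← hs.eq] at h3
    exact h3

end

end

end Pool.Agent.Y89.TU
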