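import Pool.Agent.Y89.TU.Stm2
import Pool.Agent.Y89.TS.Dich4

/-!
# One correspondence suffices: the Lie algebra
-/

open Matrix Finset Function

set_option linter.unusedSectionVars false

namespace Pool.Agent.Y89.TU

noncomputable section

open Pool.Agent.W544.PG (HS HW mC cspan cx)
open Pool.Agent.Y89.KS
open Pool.Agent.Y89.TS

section
variable {n w : ℕ}

/-- the infinitesimal symmetries of a system on `V ⊕ W` -/
def LA (A : ∀ k : ℕ, Submodule ℚ ((Fin k → Fin n ⊕ Fin w) → ℚ)) :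
    Submodule ℂ (Matrix (Fin n ⊕ Fin w) (Fin n ⊕ Fin w) ℂ) where
  carrier := {X | ∀ k : ℕ, ∀ t ∈ A k, der X (cx t) = 0}
  zero_mem' := fun k t _ => der_zero _
  add_mem' := by
    intro a b ha hb k t ht
    rw [der_add, ha k t ht, hb k t ht, add_zero]
  smul_mem' := by
    intro c a ha k t ht
    rw [der_smul, ha k t ht, smul_zero]

variable {V : HS n} {W : HW w} {Γ : Fin n → Matrix (Fin w) (Fin w) ℚ} {c : ℚ}
  {A : ∀ k : ℕ, Submodule ℚ ((Fin k → Fin n ⊕ Fin w) → ℚ)}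

theorem LA_br : ∀ a ∈ LA A, ∀ b ∈ LA A, a * b - b * a ∈ LA A := by
  intro a ha b hb k t ht
  rw [Pool.Agent.Y175.KS.Mix.der_lie a b, ha k t ht, hb k t ht]
  have h1 : ∀ z : Matrix (Fin n ⊕ Fin w) (Fin n ⊕ Fin w) ℂ,
      der z (0 : (Fin k → Fin n ⊕ Fin w) → ℂ) = 0 := by
    intro z
    funext J
    simp [der, sl]
  rw [h1, h1, sub_zero]

theorem LA_span {X : Matrix (Fin n ⊕ Fin w) (Fin n ⊕ Fin w) ℂ} (hX : X ∈ LA A) {k : ℕ}
    {f : (Fin k → Fin n ⊕ Fin w) → ℂ} (hf : f ∈ AC A k) : der X f = 0 := by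
  unfold AC cspan at hf
  induction hf using Submodule.span_induction with
  | mem f hf =>
    obtain ⟨t, ht, rfl⟩ := hf
    exact hX k t ht
  | zero => exact map_zero (derL k X)
  | add a b _ _ ha hb =>
    have h1 := map_add (derL k X) a b
    change der X (a + b) = der X a + der X b at h1
    rw [h1, ha, hb, add_zero]
  | smul c a _ ha =>
    have h1 := map_smul (derL k X) c a
    change der X (c • a) = c • der X a at h1
    rw [h1, ha, smul_zero]

/-- the operator `(z, sp z)` -/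
abbrev dz (V : HS n) (Γ : Fin n → Matrix (Fin w) (Fin w) ℚ) (c : ℚ)
    (z : Matrix (Fin n) (Fin n) ℂ) : Matrix (Fin n ⊕ Fin w) (Fin n ⊕ Fin w) ℂ := totL V Γ c z

theorem dz_eq (z : Matrix (Fin n) (Fin n) ℂ) :
    dz V Γ c z = fromBlocks z 0 0 (sp V Γ c z) := rfl

theorem dz_LA (h : Cliff V W Γ c) (hH : ∀ k : ℕ, ∀ t ∈ A k, IsHodge V W t) :
    ∀ z ∈ g0 V, dz V Γ c z ∈ LA A := by
  intro z hz
  let L : Submodule ℂ (Matrix (Fin n) (Fin n) ℂ) :=
    { carrier := {z | z ∈ g0 V ∧ totL V Γ c z ∈ LA A}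
      zero_mem' := ⟨fun L _ _ => L.zero_mem, by rw [map_zero]; exact (LA A).zero_mem⟩
      add_mem' := by
        rintro a b ⟨ha, ha'⟩ ⟨hb, hb'⟩
        refine ⟨g0_add V ha hb, ?_⟩
        rw [map_add]
        exact (LA A).add_mem ha' hb'
      smul_mem' := by
        rintro t a ⟨ha, ha'⟩
        refine ⟨g0_smul V t ha, ?_⟩
        rw [map_smul]
        exact (LA A).smul_mem _ ha' }
  refine (hz L ?_ ?_).2
  · rintro a ⟨ha, ha'⟩ b ⟨hb, hb'⟩
    refine ⟨g0_br V ha hb, ?_⟩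
    rw [tot_br h ha]
    exact LA_br _ ha' _ hb'
  · intro σ
    refine ⟨x_mem V σ, ?_⟩
    have e : totL V Γ c (V.x.map σ) = (Xop V W).map σ := by
      rw [Xop_map, h.y σ]
      rfl
    rw [e]
    intro k t ht
    exact der_cx_conj σ _ t (der_cx.1 (hH k t ht))

theorem bil_zero' {M : Matrix (Fin n ⊕ Fin w) (Fin n ⊕ Fin w) ℂ}
    (h : (fun J : Fin 2 → Fin n ⊕ Fin w => M (J 0) (J 1)) = 0) : M = 0 := by
  ext a b
  have := congrFun h ![a, b]
  simpa using this

theorem bil_inj' {M N : Matrix (Fin n ⊕ Fin w) (Fin n ⊕ Fin w) ℂ}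
    (h : (fun J : Fin 2 → Fin n ⊕ Fin w => M (J 0) (J 1)) = fun J => N (J 0) (J 1)) : M = N := by
  ext a b
  have := congrFun h ![a, b]
  simpa using this

/-- the form of `V` -/
theorem Q_span (hA : Cycles V W A) :
    (fun J : Fin 2 → Fin n ⊕ Fin w => fromBlocks (mC V.Q) 0 0 0 (J 0) (J 1)) ∈ AC A 2 := by
  have h := cx_mem hA.diagonal
  have e : cx (fun J : Fin 2 → Fin n ⊕ Fin w => fromBlocks V.Q 0 0 0 (J 0) (J 1)) =
      fun J : Fin 2 → Fin n ⊕ Fin w => fromBlocks (mC V.Q) 0 0 0 (J 0) (J 1) := by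
    funext J
    unfold cx
    rcases h0 : J 0 with a | a <;> rcases h1 : J 1 with b | b <;> simp [fromBlocks, mC, h0, h1]
  rwa [e] at h

theorem E_span' (hA : Cycles V W A) :
    (fun J : Fin 2 → Fin n ⊕ Fin w => fromBlocks 0 0 0 (mC W.E) (J 0) (J 1)) ∈ AC A 2 := by
  have h := const_mem hA 1 (fun σ => by rw [Matrix.one_mul, Matrix.mul_one])
  rwa [Matrix.mul_one] at h

theorem LA_blocks (hA : Cycles V W A) {X : Matrix (Fin n ⊕ Fin w) (Fin n ⊕ Fin w) ℂ}
    (hX : X ∈ LA A) : ∃ a d, X = fromBlocks a 0 0 d ∧ aᵀ * mC V.Q + mC V.Q * a = 0 ∧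
      dᵀ * mC W.E + mC W.E * d = 0 := by
  have h1 := LA_span hX (Q_span hA)
  rw [bil_der] at h1
  have h1 := bil_zero' h1
  have h2 := LA_span hX (E_span' hA)
  rw [bil_der] at h2
  have h2 := bil_zero' h2
  rw [← fromBlocks_toBlocks X, fromBlocks_transpose, fromBlocks_multiply, fromBlocks_multiply,
    fromBlocks_add, ← fromBlocks_zero, fromBlocks_inj] at h1 h2
  simp only [Matrix.mul_zero, Matrix.zero_mul, add_zero, zero_add] at h1 h2
  obtain ⟨a1, a2, a3, a4⟩ := h1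
  obtain ⟨b1, b2, b3, b4⟩ := h2
  have e2 : X.toBlocks₁₂ = 0 := by
    have := congrArg (fun Z => (mC V.Q)⁻¹ * Z) a2
    simpa only [← Matrix.mul_assoc, RQ, Matrix.one_mul, Matrix.mul_zero] using this
  have e3 : X.toBlocks₂₁ = 0 := by
    have := congrArg (fun Z => (mC W.E)⁻¹ * Z) b3
    simpa only [← Matrix.mul_assoc, Einv', Matrix.one_mul, Matrix.mul_zero] using this
  refine ⟨X.toBlocks₁₁, X.toBlocks₂₂, ?_, a1, b4⟩
  conv_lhs => rw [← fromBlocks_toBlocks X, e2, e3]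

theorem LA_comm (hA : Cycles V W A) {d : Matrix (Fin w) (Fin w) ℂ}
    (hX : fromBlocks (0 : Matrix (Fin n) (Fin n) ℂ) 0 0 d ∈ LA A)
    {e : Matrix (Fin w) (Fin w) ℂ} (he : ∀ σ : ℂ ≃+* ℂ, e * W.y.map σ = W.y.map σ * e) :
    d * e = e * d := by
  have h0 := LA_span hX (E_span' hA)
  rw [bil_der] at h0
  have h0 := bil_zero' h0
  have h1 := LA_span hX (const_mem hA e he)
  rw [bil_der] at h1
  have h1 := bil_zero' h1
  rw [fromBlocks_transpose, fromBlocks_multiply, fromBlocks_multiply,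
    fromBlocks_add, ← fromBlocks_zero, fromBlocks_inj] at h0 h1
  simp only [Matrix.mul_zero, Matrix.zero_mul, add_zero, zero_add] at h0 h1
  have h2 := h0.2.2.2
  have h3 := h1.2.2.2
  rw [← Matrix.mul_assoc, eq_neg_of_add_eq_zero_left h2, Matrix.neg_mul,
    Matrix.mul_assoc, Matrix.mul_assoc, neg_add_eq_sub, sub_eq_zero] at h3
  exact (E_cancel W h3).symm

/-- skew operators are in the Lie algebra -/
theorem skew_g0 (hV : (V.x * V.x).trace = 2) (hS : V.Scalar) {z : Matrix (Fin n) (Fin n) ℂ}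
    (hz : zᵀ * mC V.Q + mC V.Q * z = 0) : z ∈ g0 V := by
  have h1 : z = ∑ i, ∑ j, ((z * (mC V.Q)⁻¹) i j / 2) •
      wdg (mC V.Q) (Pi.single i 1) (Pi.single j 1) := by
    have hR : (z * (mC V.Q)⁻¹)ᵀ = -(z * (mC V.Q)⁻¹) := by
      have hRQ : (mC V.Q)⁻¹ * mC V.Q = 1 := mul_eq_one_comm.1 (QRV V)
      have hRt : ((mC V.Q)⁻¹)ᵀ = (mC V.Q)⁻¹ := by rw [Matrix.transpose_nonsing_inv, Qt]
      rw [transpose_mul, hRt]
      calc (mC V.Q)⁻¹ * zᵀ = (mC V.Q)⁻¹ * (zᵀ * mC V.Q) * (mC V.Q)⁻¹ := by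
            rw [Matrix.mul_assoc, Matrix.mul_assoc, QRV, Matrix.mul_one]
        _ = -(z * (mC V.Q)⁻¹) := by
            rw [eq_neg_of_add_eq_zero_left hz, Matrix.mul_neg, ← Matrix.mul_assoc, hRQ,
              Matrix.one_mul, Matrix.neg_mul]
    have h2 : z = (z * (mC V.Q)⁻¹) * mC V.Q := by
      rw [Matrix.mul_assoc, RQ, Matrix.mul_one]
    set T := z * (mC V.Q)⁻¹ with hT
    ext p q
    have h3 : ∀ i j, wdg (mC V.Q) (Pi.single i 1) (Pi.single j 1) p q =
        (if p = i then mC V.Q j q else 0) - (if p = j then mC V.Q i q else 0) := by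
      intro i j
      have hQs : ∀ a b, mC V.Q a b = mC V.Q b a := fun a b => congrFun (congrFun (Qt V) b) a
      unfold wdg
      rw [Matrix.sub_apply, Matrix.vecMulVec_apply, Matrix.vecMulVec_apply,
        Matrix.mulVec_single_one, Matrix.mulVec_single_one, Matrix.col_apply, Matrix.col_apply,
        hQs q j, hQs q i]
      simp only [Pi.single_apply, ite_mul, one_mul, zero_mul]
    conv_lhs => rw [h2]
    rw [Matrix.mul_apply, Matrix.sum_apply]
    simp only [Matrix.sum_apply, Matrix.smul_apply, smul_eq_mul, h3, mul_sub, mul_ite, mul_zero,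
      Finset.sum_sub_distrib, Finset.sum_ite_eq, Finset.mem_univ, if_true]
    have h4 : ∑ x, ∑ x_1, (if p = x then T x x_1 / 2 * mC V.Q x_1 q else 0) =
        ∑ x_1, T p x_1 / 2 * mC V.Q x_1 q := by
      rw [Finset.sum_comm]
      simp only [Finset.sum_ite_eq, Finset.mem_univ, if_true]
    rw [h4, ← Finset.sum_sub_distrib]
    refine Finset.sum_congr rfl fun j _ => ?_
    have h5 : T j p = -T p j := by
      have := congrFun (congrFun hR p) j
      rwa [Matrix.transpose_apply, Matrix.neg_apply] at this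
    rw [h5]
    ring
  rw [h1]
  intro L hL hx
  exact L.sum_mem fun i _ => L.sum_mem fun j _ => L.smul_mem _ (wdg_mem hV hS _ _ L hL hx)

end

end

end Pool.Agent.Y89.TU
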