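import Pool.Agent.Y89.TU.Stm
import Pool.Agent.Y89.KS.MainE

/-!
# Project TV (one correspondence): definitions and parts, II
-/

open Matrix Finset

namespace Pool.Agent.Y89.TU

noncomputable section

open Pool.Agent.W544.PG (HS HW mC cspan cx)
open Pool.Agent.Y89.KS
open Pool.Agent.Y89.TS (Clf InD act)

section
variable {n w k : ℕ}

/-- the restriction of a system on `V ⊕ W` to `W` -/
def resW (A : ∀ k : ℕ, Submodule ℚ ((Fin k → Fin n ⊕ Fin w) → ℚ)) (k : ℕ) :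
    Submodule ℚ ((Fin k → Fin w) → ℚ) where
  carrier := {t | extW n t ∈ A k}
  zero_mem' := by
    have h : extW n (0 : (Fin k → Fin w) → ℚ) = 0 := by
      funext J
      simp [extW]
    rw [Set.mem_ofPred_eq, h]
    exact (A k).zero_mem
  add_mem' := by
    intro a b ha hb
    rw [Set.mem_ofPred_eq] at *
    have h : extW n (a + b) = extW n a + extW n b := by
      funext J
      simp only [extW, Pi.add_apply]
      split_ifs <;> simp
    rw [h]
    exact (A k).add_mem ha hb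
  smul_mem' := by
    intro c a ha
    rw [Set.mem_ofPred_eq] at *
    have h : extW n (c • a) = c • extW n a := by
      funext J
      simp only [extW, Pi.smul_apply]
      split_ifs <;> simp
    rw [h]
    exact (A k).smul_mem c ha

/-- the form `∑ Q⁻¹ i j C_i ⊗ (E Γ_j)` -/
def kap (V : HS n) (W : HW w) (Γ : Fin n → Matrix (Fin w) (Fin w) ℚ)
    (C : Fin n → (Fin k → Fin w) → ℚ) : (Fin (k + 2) → Fin w) → ℚ :=
  fun J => ∑ i, ∑ j, V.Q⁻¹ i j * C i (fun s => J (Fin.castAdd 2 s)) *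
    (W.E * Γ j) (J (Fin.natAdd k 0)) (J (Fin.natAdd k 1))

end

/-- (RESW) -/
def S_resw : Prop := ∀ (n w : ℕ) (V : HS n) (W : HW w)
  (A : ∀ k : ℕ, Submodule ℚ ((Fin k → Fin n ⊕ Fin w) → ℚ)), Cycles V W A →
  CyclesW W (resW A)

/-- (KAP) -/
def S_kap : Prop := ∀ (n w k : ℕ) (V : HS n) (W : HW w)
  (Γ : Fin n → Matrix (Fin w) (Fin w) ℚ) (c : ℚ), Cliff V W Γ c →
  ∀ C : Fin n → (Fin k → Fin w) → ℚ,
  (∀ i, (∑ p, V.x p i • cx (C p)) + der W.y (cx (C i)) = 0) →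
  HodgeW W (kap V W Γ C) ∧ (kap V W Γ C = 0 → C = 0) ∧
  ∀ (a' : Matrix (Fin n) (Fin n) ℂ) (g : Matrix (Fin w) (Fin w) ℂ) (ε : ℂ),
    a' * (mC V.Q)⁻¹ * a'ᵀ = (mC V.Q)⁻¹ →
    (∀ i, act gᵀ (cx (C i)) = ∑ p, a' p i • cx (C p)) →
    (∀ j, gᵀ * (mC W.E * mC (Γ j)) * g = ε • ∑ p, a' p j • (mC W.E * mC (Γ p))) →
    act gᵀ (cx (kap V W Γ C)) = ε • cx (kap V W Γ C)

end

end Pool.Agent.Y89.TU
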